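import Pool.Agent.Lib.UDGCube.Defs

/-! Two arcs (module of `UDGCube`). -/

namespace UDGCube

private theorem arc_cav {u v l m : ℝ} (hu : u ^ 2 ≤ 1) (hv : v ^ 2 ≤ 1) (hl : 0 ≤ l) (hm : 0 ≤ m)
    (h : l + m = 1) :
    l * √(1 - u ^ 2) + m * √(1 - v ^ 2) ≤ √(1 - (l * u + m * v) ^ 2) := by
  have hU := Real.sq_sqrt (show 0 ≤ 1 - u ^ 2 by linarith)
  have hV := Real.sq_sqrt (show 0 ≤ 1 - v ^ 2 by linarith)
  have hU0 := Real.sqrt_nonneg (1 - u ^ 2)
  have hV0 := Real.sqrt_nonneg (1 - v ^ 2)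
  set U := √(1 - u ^ 2)
  set V := √(1 - v ^ 2)
  apply Real.le_sqrt_of_sq_le
  have h1 : u * v + U * V ≤ 1 := by nlinarith [sq_nonneg (u - v), sq_nonneg (U - V)]
  have h2 : 0 ≤ l * m := mul_nonneg hl hm
  have h3 : l * m * (u * v + U * V) ≤ l * m * 1 := mul_le_mul_of_nonneg_left h1 h2
  have h4 : (l + m) ^ 2 = 1 := by rw [h]; norm_num
  have e : (l * U + m * V) ^ 2 + (l * u + m * v) ^ 2 =
      l ^ 2 * (U ^ 2 + u ^ 2) + m ^ 2 * (V ^ 2 + v ^ 2) + 2 * (l * m * (u * v + U * V)) := by ring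
  have e1 : U ^ 2 + u ^ 2 = 1 := by rw [hU]; ring
  have e2 : V ^ 2 + v ^ 2 = 1 := by rw [hV]; ring
  rw [e1, e2] at e
  nlinarith

private theorem arc_maj {p d k : ℝ} (hd : 0 ≤ d) (hk : 0 ≤ k) (h1 : -1 ≤ p) (h2 : p + d + k ≤ 1) :
    √(1 - p ^ 2) + √(1 - (p + d + k) ^ 2) ≤ √(1 - (p + d) ^ 2) + √(1 - (p + k) ^ 2) := by
  rcases eq_or_lt_of_le (add_nonneg hd hk) with h0 | h0
  · have hd0 : d = 0 := by linarith
    have hk0 : k = 0 := by linarith
    subst hd0 hk0
    simp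
  have hp : p ^ 2 ≤ 1 := by nlinarith
  have hq : (p + d + k) ^ 2 ≤ 1 := by nlinarith
  have hne : d + k ≠ 0 := ne_of_gt h0
  have a1 := arc_cav (u := p) (v := p + d + k) (l := k / (d + k)) (m := d / (d + k)) hp hq
    (div_nonneg hk h0.le) (div_nonneg hd h0.le) (by field_simp; ring)
  have a2 := arc_cav (u := p) (v := p + d + k) (l := d / (d + k)) (m := k / (d + k)) hp hq
    (div_nonneg hd h0.le) (div_nonneg hk h0.le) (by field_simp)
  have e1 : k / (d + k) * p + d / (d + k) * (p + d + k) = p + d := by field_simp; ring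
  have e2 : d / (d + k) * p + k / (d + k) * (p + d + k) = p + k := by field_simp; ring
  rw [e1] at a1
  rw [e2] at a2
  have e3 : k / (d + k) + d / (d + k) = 1 := by field_simp; ring
  have e4 : √(1 - p ^ 2) + √(1 - (p + d + k) ^ 2) =
      (k / (d + k) * √(1 - p ^ 2) + d / (d + k) * √(1 - (p + d + k) ^ 2)) +
      (d / (d + k) * √(1 - p ^ 2) + k / (d + k) * √(1 - (p + d + k) ^ 2)) := by
    have : (k / (d + k) + d / (d + k)) * (√(1 - p ^ 2) + √(1 - (p + d + k) ^ 2)) =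
      (k / (d + k) * √(1 - p ^ 2) + d / (d + k) * √(1 - (p + d + k) ^ 2)) +
      (d / (d + k) * √(1 - p ^ 2) + k / (d + k) * √(1 - (p + d + k) ^ 2)) := by ring
    rw [← this, e3, one_mul]
  rw [e4]
  exact add_le_add a1 a2

private theorem arc_dom {c : ℝ × ℝ} {x : ℝ} {w : WithBot ℝ} (h : w < arc c x) : |x - c.1| ≤ 1 := by
  by_contra hc
  rw [arc, if_neg hc] at h
  exact not_lt_bot h

private theorem arc_val {c : ℝ × ℝ} {x : ℝ} (h : |x - c.1| ≤ 1) :
    arc c x = ((c.2 + √(1 - (x - c.1) ^ 2) : ℝ) : WithBot ℝ) := by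
  rw [arc, if_pos h]

/-- The set of abscissae where the arc of `a` is below the arc of `b` is convex. If `b.1 ≤ a.1` then on
the common domain `√(1-(x-b.1)²) - √(1-(x-a.1)²)` is antitone in `x` (concavity of `√(1-t²)` on
`[-1,1]`), and the rest of the domain of `b` is to the left; symmetric for `a.1 ≤ b.1`. -/
theorem arc_conn (a b : ℝ × ℝ) {x y z : ℝ} (h1 : x ≤ y) (h2 : y ≤ z) (hx : arc a x < arc b x)
    (hz : arc a z < arc b z) : arc a y < arc b y := by
  have bx := abs_le.1 (arc_dom hx)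
  have bz := abs_le.1 (arc_dom hz)
  have hb : |y - b.1| ≤ 1 := abs_le.2 ⟨by linarith [bx.1], by linarith [bz.2]⟩
  rw [arc_val hb]
  by_cases ha : |y - a.1| ≤ 1
  swap
  · rw [arc, if_neg ha]
    exact WithBot.bot_lt_coe _
  rw [arc_val ha, WithBot.coe_lt_coe]
  have ya := abs_le.1 ha
  have yb := abs_le.1 hb
  rcases le_total b.1 a.1 with h | h
  · have az : |z - a.1| ≤ 1 := abs_le.2 ⟨by linarith [ya.1], by linarith [bz.2]⟩
    rw [arc_val az, arc_val (arc_dom hz), WithBot.coe_lt_coe] at hz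
    have := arc_maj (p := y - a.1) (d := a.1 - b.1) (k := z - y) (by linarith) (by linarith)
      ya.1 (by linarith [bz.2])
    rw [show y - a.1 + (a.1 - b.1) + (z - y) = z - b.1 by ring,
      show y - a.1 + (a.1 - b.1) = y - b.1 by ring, show y - a.1 + (z - y) = z - a.1 by ring] at this
    linarith
  · have ax : |x - a.1| ≤ 1 := abs_le.2 ⟨by linarith [bx.1], by linarith [ya.2]⟩
    rw [arc_val ax, arc_val (arc_dom hx), WithBot.coe_lt_coe] at hx
    have := arc_maj (p := x - b.1) (d := b.1 - a.1) (k := y - x) (by linarith) (by linarith)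
      bx.1 (by linarith [ya.2])
    rw [show x - b.1 + (b.1 - a.1) + (y - x) = y - a.1 by ring,
      show x - b.1 + (b.1 - a.1) = x - a.1 by ring, show x - b.1 + (y - x) = y - b.1 by ring] at this
    linarith

end UDGCube
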