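import Pool.Agent.Lib.UDGCube.CntDefs

/-! The number of groups (module of `UDGCube`). -/

namespace UDGCube

open Classical

/-- The groups in the band `β` have different numbers `ky ≤ En β n / D + n_β / m`. -/
theorem groups_card (T : ℕ → ℕ → ℕ) (A : Finset ℕ) (lev : ℕ → ℕ) (D m n s : ℕ) (hD : 0 < D)
    (hlev : ∀ x, lev x ≤ s) :
    ((Finset.range n).filter fun g => ∃ b < n, rep T A lev D m b = g).card ≤
      ∑ β ∈ Finset.range (s / D + 1), (En T A D β n / D +
        ((Finset.range n).filter fun b => lev b / D = β).card / m + 1) := by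
  have hmaps : ∀ g ∈ (Finset.range n).filter fun g => ∃ b < n, rep T A lev D m b = g,
      lev g / D ∈ Finset.range (s / D + 1) := by
    intro g _
    rw [Finset.mem_range]
    exact Nat.lt_succ_of_le (Nat.div_le_div_right (hlev g))
  rw [Finset.card_eq_sum_card_fiberwise hmaps]
  refine Finset.sum_le_sum fun β _ => ?_
  have hc : (Finset.range (En T A D β n / D +
        ((Finset.range n).filter fun b => lev b / D = β).card / m + 1)).card =
      En T A D β n / D + ((Finset.range n).filter fun b => lev b / D = β).card / m + 1 :=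
    Finset.card_range _
  refine le_trans ?_ hc.le
  apply Finset.card_le_card_of_injOn (fun g => ky T A lev D m g)
  · intro g hg
    have hg' := Finset.mem_coe.1 hg
    rw [Finset.mem_filter, Finset.mem_filter, Finset.mem_range] at hg'
    obtain ⟨⟨hgn, -⟩, hβ⟩ := hg'
    rw [Finset.mem_coe, Finset.mem_range]
    have h1 : En T A D (lev g / D) g / D ≤ En T A D β n / D := by
      rw [hβ]
      exact Nat.div_le_div_right (En_mono T A D β hgn.le)
    have h2 : Jn lev D g / m ≤ ((Finset.range n).filter fun b => lev b / D = β).card / m := by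
      apply Nat.div_le_div_right
      unfold Jn
      rw [hβ]
      apply Finset.card_le_card
      intro z hz
      rw [Finset.mem_filter, Finset.mem_range] at hz ⊢
      exact ⟨by omega, hz.2⟩
    show ky T A lev D m g < _
    unfold ky
    omega
  · intro x hx y hy hxy
    have hx' := Finset.mem_coe.1 hx
    have hy' := Finset.mem_coe.1 hy
    rw [Finset.mem_filter, Finset.mem_filter] at hx' hy'
    obtain ⟨⟨-, a, -, ha⟩, hxb⟩ := hx'
    obtain ⟨⟨-, b, -, hb⟩, hyb⟩ := hy'
    have e1 := rep_spec T A lev D m a
    have e2 := rep_spec T A lev D m b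
    rw [ha] at e1
    rw [hb] at e2
    have hk : ky T A lev D m x = ky T A lev D m y := hxy
    have h1 : lev a / D = lev b / D := by rw [← e1.2.1, ← e2.2.1, hxb, hyb]
    have h2 : ky T A lev D m a = ky T A lev D m b := by rw [← e1.2.2, ← e2.2.2, hk]
    rw [← ha, ← hb]
    unfold rep
    rw [h1, h2]

end UDGCube
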