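import Pool.Agent.Lib.UDGCube.CntDefs

/-! The total number of events (module of `UDGCube`). -/

namespace UDGCube

open Classical

/-- A value is about in at most three bands. -/
theorem abt_card (D t N : ℕ) : ((Finset.range N).filter fun β => abt D β t).card ≤ 3 := by
  have hsub : ((Finset.range N).filter fun β => abt D β t) ⊆
      {t / D - 1, t / D, t / D + 1} := by
    intro β hβ
    rw [Finset.mem_filter] at hβ
    obtain ⟨-, h1, h2⟩ := hβ
    simp only [Finset.mem_insert, Finset.mem_singleton]
    omega
  exact (Finset.card_le_card hsub).trans Finset.card_le_three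

/-- The starts of the constant pieces. -/
theorem starts_card (f : ℕ → ℕ) (n k : ℕ)
    (hch : ((Finset.range n).filter fun x => f (x + 1) ≠ f x).card ≤ k) :
    ((Finset.range (n + 1)).filter fun y => y = 0 ∨ f y ≠ f (y - 1)).card ≤ k + 1 := by
  have hsub : ((Finset.range (n + 1)).filter fun y => y = 0 ∨ f y ≠ f (y - 1)) ⊆
      insert 0 (((Finset.range n).filter fun x => f (x + 1) ≠ f x).image Nat.succ) := by
    intro y hy
    rw [Finset.mem_filter, Finset.mem_range] at hy
    obtain ⟨h1, h2⟩ := hy
    rw [Finset.mem_insert, Finset.mem_image]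
    rcases Nat.eq_zero_or_pos y with h0 | h0
    · exact Or.inl h0
    · refine Or.inr ⟨y - 1, ?_, by omega⟩
      rw [Finset.mem_filter, Finset.mem_range]
      refine ⟨by omega, ?_⟩
      have h3 : y - 1 + 1 = y := by omega
      rw [h3]
      exact h2.resolve_left (by omega)
  calc _ ≤ _ := Finset.card_le_card hsub
    _ ≤ _ := Finset.card_insert_le _ _
    _ ≤ k + 1 := by
        have := Finset.card_image_le
          (s := (Finset.range n).filter fun x => f (x + 1) ≠ f x) (f := Nat.succ)
        omega

/-- A value is about in at most three bands; `T a` has at most `k + 1` pieces on `[0, n]`. -/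
theorem events_sum (T : ℕ → ℕ → ℕ) (A : Finset ℕ) (D n k N : ℕ)
    (hch : ∀ a ∈ A, ((Finset.range n).filter fun x => T a (x + 1) ≠ T a x).card ≤ k) :
    ∑ β ∈ Finset.range N, En T A D β n ≤ 3 * (A.card * (k + 1)) := by
  unfold En
  rw [Finset.sum_comm]
  have key : ∀ a ∈ A, ∑ β ∈ Finset.range N,
      ((Finset.range (n + 1)).filter fun y => evt T D β a y).card ≤ 3 * (k + 1) := by
    intro a ha
    simp only [Finset.card_filter]
    rw [Finset.sum_comm]
    have h1 : ∀ y ∈ Finset.range (n + 1),
        (∑ β ∈ Finset.range N, if evt T D β a y then 1 else 0) ≤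
          if (y = 0 ∨ T a y ≠ T a (y - 1)) then 3 else 0 := by
      intro y _
      by_cases hy : y = 0 ∨ T a y ≠ T a (y - 1)
      · rw [if_pos hy]
        refine le_trans (le_of_eq ?_) (abt_card D (T a y) N)
        rw [Finset.card_filter]
        refine Finset.sum_congr rfl fun β _ => ?_
        unfold evt
        simp only [hy, true_and]
      · rw [if_neg hy]
        apply le_of_eq
        apply Finset.sum_eq_zero
        intro β _
        unfold evt
        rw [if_neg]
        rintro ⟨h, -⟩
        exact hy h
    refine (Finset.sum_le_sum h1).trans ?_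
    rw [← Finset.sum_filter, Finset.sum_const, smul_eq_mul, mul_comm]
    exact Nat.mul_le_mul_left 3 (starts_card (T a) n k (hch a ha))
  refine (Finset.sum_le_sum key).trans ?_
  rw [Finset.sum_const, smul_eq_mul]
  apply le_of_eq
  ring

end UDGCube
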