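import Pool.Agent.Lib.UDGCube.CntDefs

/-! The lines near a group (module of `UDGCube`). -/

namespace UDGCube

open Classical

/-- Between a position where the value is not about in the band and a later one where it is, there is
an event. -/
theorem exists_evt (T : ℕ → ℕ → ℕ) (D β a g b : ℕ) (hgb : g ≤ b) (h1 : ¬ abt D β (T a g))
    (h2 : abt D β (T a b)) : ∃ y, g < y ∧ y ≤ b ∧ evt T D β a y := by
  have hex : ∃ y, ∀ z, y ≤ z → z ≤ b → T a z = T a b :=
    ⟨b, fun z h3 h4 => by rw [le_antisymm h4 h3]⟩
  set y := Nat.find hex with hy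
  have hp : ∀ z, y ≤ z → z ≤ b → T a z = T a b := Nat.find_spec hex
  have hyb : y ≤ b := Nat.find_min' hex fun z h3 h4 => by rw [le_antisymm h4 h3]
  have hgy : g < y := by
    by_contra hc
    push Not at hc
    exact h1 ((hp g hc hgb) ▸ h2)
  refine ⟨y, hgy, hyb, Or.inr ?_, (hp y le_rfl hyb).symm ▸ h2⟩
  intro hc
  have h3 : y - 1 < y := by omega
  apply Nat.find_min hex h3
  intro z h4 h5
  rcases Nat.lt_or_ge z y with h6 | h6
  · have h7 : z = y - 1 := by omega
    rw [h7, ← hc]
    exact hp y le_rfl hyb
  · exact hp z h6 h5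

theorem near_card (T R : ℕ → ℕ → ℕ) (A : Finset ℕ) (lev : ℕ → ℕ) (D m n g : ℕ) (hD : 0 < D)
    (hR : ∀ x < n, ∀ a ∈ A, ∀ b ∈ A, R a x = R b x → a = b)
    (hT : ∀ a ∈ A, ∀ x < n, R a x < T a x + D ∧ T a x < R a x + D) :
    (A.filter fun a => ∃ b < n, rep T A lev D m b = g ∧ T a b ≤ lev b + D ∧
      lev b ≤ T a b + D).card ≤ 6 * D := by
  by_cases hB : ((Finset.range n).filter fun b => rep T A lev D m b = g).Nonempty
  swap
  · rw [Finset.not_nonempty_iff_eq_empty] at hB
    have : (A.filter fun a => ∃ b < n, rep T A lev D m b = g ∧ T a b ≤ lev b + D ∧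
        lev b ≤ T a b + D) = ∅ := by
      rw [Finset.filter_eq_empty_iff]
      rintro a _ ⟨b, hb, hr, -⟩
      have h1 : b ∈ (Finset.range n).filter fun b => rep T A lev D m b = g :=
        Finset.mem_filter.2 ⟨Finset.mem_range.2 hb, hr⟩
      rw [hB] at h1
      exact absurd h1 (Finset.notMem_empty b)
    rw [this, Finset.card_empty]
    omega
  obtain ⟨bs, hbs, hmax⟩ := Finset.exists_max_image _ (fun b => b) hB
  rw [Finset.mem_filter, Finset.mem_range] at hbs
  obtain ⟨hbn, hbr⟩ := hbs
  obtain ⟨s1, s2, s3⟩ := rep_spec T A lev D m bs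
  rw [hbr] at s1 s2 s3
  set β := lev g / D with hβ
  have hgn : g < n := lt_of_le_of_lt s1 hbn
  have hE := (ky_eq T A lev D m s1 s2 s3).1
  rw [← hβ] at hE
  have hElt : En T A D β bs < En T A D β g + D := by
    have h1 := Nat.lt_div_mul_add (a := En T A D β bs) hD
    have h2 := Nat.div_mul_le_self (En T A D β g) D
    rw [← hE] at h1
    omega
  set A1 := A.filter fun a => abt D β (T a g) with hA1
  set A2 := A.filter fun a => ∃ y, g < y ∧ y ≤ bs ∧ evt T D β a y with hA2
  have hsub : (A.filter fun a => ∃ b < n, rep T A lev D m b = g ∧ T a b ≤ lev b + D ∧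
      lev b ≤ T a b + D) ⊆ A1 ∪ A2 := by
    intro a ha
    rw [Finset.mem_filter] at ha
    obtain ⟨haA, b, hb, hr, hn1, hn2⟩ := ha
    rw [Finset.mem_union, hA1, hA2, Finset.mem_filter, Finset.mem_filter]
    obtain ⟨r1, r2, -⟩ := rep_spec T A lev D m b
    rw [hr] at r1 r2
    have hbb : b ≤ bs := hmax b (Finset.mem_filter.2 ⟨Finset.mem_range.2 hb, hr⟩)
    have hab : abt D β (T a b) := by
      constructor
      · have h1 := Nat.div_le_div_right (c := D) hn1
        rw [Nat.add_div_right _ hD] at h1
        omega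
      · have h1 := Nat.div_le_div_right (c := D) hn2
        rw [Nat.add_div_right _ hD] at h1
        omega
    by_cases h1 : abt D β (T a g)
    · exact Or.inl ⟨haA, h1⟩
    · obtain ⟨y, h2, h3, h4⟩ := exists_evt T D β a g b r1 h1 hab
      exact Or.inr ⟨haA, y, h2, h3.trans hbb, h4⟩
  have c1 : A1.card ≤ 5 * D := by
    have h1 : (A1.image fun a => R a g).card = A1.card := by
      apply Finset.card_image_of_injOn
      intro a ha b hb hab
      rw [Finset.mem_coe, hA1, Finset.mem_filter] at ha hb
      exact hR g hgn a ha.1 b hb.1 hab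
    have h2 : (A1.image fun a => R a g) ⊆ Finset.Ico ((β - 2) * D) ((β + 3) * D) := by
      intro r hr
      rw [Finset.mem_image] at hr
      obtain ⟨a, ha, rfl⟩ := hr
      rw [hA1, Finset.mem_filter] at ha
      obtain ⟨haA, h3, h4⟩ := ha
      obtain ⟨h5, h6⟩ := hT a haA g hgn
      rw [Finset.mem_Ico]
      have h7 : T a g < (T a g / D) * D + D := Nat.lt_div_mul_add hD
      have h8 : (T a g / D) * D ≤ T a g := Nat.div_mul_le_self _ _
      have h9 : (T a g / D) * D ≤ (β + 1) * D := Nat.mul_le_mul_right _ h3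
      have e1 : (β + 1) * D = β * D + D := by ring
      have e2 : (β + 3) * D = β * D + D + D + D := by ring
      constructor
      · rcases Nat.lt_or_ge β 2 with hβ2 | hβ2
        · have : β - 2 = 0 := by omega
          rw [this]
          omega
        · obtain ⟨k, hk⟩ : ∃ k, β = k + 2 := ⟨β - 2, by omega⟩
          have h10 : k + 1 ≤ T a g / D := by omega
          have h11 : (k + 1) * D ≤ (T a g / D) * D := Nat.mul_le_mul_right _ h10
          have e3 : (k + 1) * D = k * D + D := by ring
          have e4 : k + 2 - 2 = k := by omega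
          rw [hk, e4]
          omega
      · omega
    have h3 := Finset.card_le_card h2
    rw [h1, Nat.card_Ico] at h3
    rcases Nat.lt_or_ge β 2 with hβ2 | hβ2
    · have : β - 2 = 0 := by omega
      rw [this] at h3
      have h4 : (β + 3) * D ≤ 4 * D := Nat.mul_le_mul_right _ (by omega)
      omega
    · obtain ⟨k, hk⟩ : ∃ k, β = k + 2 := ⟨β - 2, by omega⟩
      rw [hk] at h3
      have e4 : k + 2 - 2 = k := by omega
      rw [e4] at h3
      have e5 : (k + 2 + 3) * D = k * D + 5 * D := by ring
      omega
  have c2 : A2.card ≤ D := by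
    have h1 : En T A D β g + A2.card ≤ En T A D β bs := by
      unfold En
      rw [hA2, Finset.card_filter, ← Finset.sum_add_distrib]
      refine Finset.sum_le_sum fun a _ => ?_
      split_ifs with h2
      · obtain ⟨y, h3, h4, h5⟩ := h2
        have h6 : ((Finset.range (g + 1)).filter fun y => evt T D β a y).card <
            ((Finset.range (bs + 1)).filter fun y => evt T D β a y).card := by
          apply Finset.card_lt_card
          rw [Finset.ssubset_iff_of_subset]
          · refine ⟨y, Finset.mem_filter.2 ⟨Finset.mem_range.2 (by omega), h5⟩, fun h7 => ?_⟩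
            have := Finset.mem_range.1 (Finset.mem_filter.1 h7).1
            omega
          · intro z hz
            rw [Finset.mem_filter, Finset.mem_range] at hz ⊢
            exact ⟨by omega, hz.2⟩
        omega
      · rw [Nat.add_zero]
        apply Finset.card_le_card
        intro z hz
        rw [Finset.mem_filter, Finset.mem_range] at hz ⊢
        exact ⟨by omega, hz.2⟩
    omega
  calc _ ≤ (A1 ∪ A2).card := Finset.card_le_card hsub
    _ ≤ A1.card + A2.card := Finset.card_union_le _ _
    _ ≤ 6 * D := by omega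

end UDGCube
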