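import Pool.Agent.Lib.UDGCube.CntA
import Pool.Agent.Lib.UDGCube.CntB
import Pool.Agent.Lib.UDGCube.CntC
import Pool.Agent.Lib.UDGCube.CntD

/-! The number of near pairs (line, group) (module of `UDGCube`). -/

namespace UDGCube

open Classical

/-- Double counting: at most `12 c²` groups (`groups_card`, `events_sum` with `k = 2 c`,
`s < c D`, `n ≤ c³`), at most `6 D` near lines per group (`near_card`), `c D ≤ 2 s`. -/
theorem near_sum {n c s D : ℕ} (A : Finset ℕ) (T R : ℕ → ℕ → ℕ) (lev : ℕ → ℕ)
    (hA : A.card = s) (hc : 0 < c) (hcs : c ≤ s) (hn : n ≤ c ^ 3) (hD : D = s / c + 1)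
    (hR : ∀ x < n, ∀ a ∈ A, ∀ b ∈ A, R a x = R b x → a = b)
    (hT : ∀ a ∈ A, ∀ x < n, R a x < T a x + D ∧ T a x < R a x + D)
    (hch : ∀ a ∈ A, ((Finset.range n).filter fun x => T a (x + 1) ≠ T a x).card ≤ 2 * c)
    (hlev : ∀ x, lev x ≤ s) :
    ∑ a ∈ A, ((Finset.range n).filter fun g => ∃ b < n, rep T A lev D c b = g ∧
      T a b ≤ lev b + D ∧ lev b ≤ T a b + D).card ≤ 144 * c * s := by
  have hD0 : 0 < D := by
    rw [hD]
    exact Nat.succ_pos _
  have hscD : s < c * D := by
    rw [hD]
    have h1 := Nat.div_add_mod s c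
    have h2 := Nat.mod_lt s hc
    rw [mul_add, mul_one]
    omega
  have hcD : c * D ≤ 2 * s := by
    rw [hD, mul_add, mul_one]
    have := Nat.mul_div_le s c
    omega
  have hsD : s / D + 1 ≤ c := by
    have : s / D < c := by
      rw [Nat.div_lt_iff_lt_mul hD0]
      exact hscD
    omega
  -- the groups
  obtain ⟨G, hG⟩ : ∃ G : Finset ℕ, G = (Finset.range n).filter fun g =>
    ∃ b < n, rep T A lev D c b = g := ⟨_, rfl⟩
  have hGc : G.card ≤ 12 * c ^ 2 := by
    have h1 := groups_card T A lev D c n s hD0 hlev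
    rw [← hG] at h1
    refine h1.trans ?_
    rw [Finset.sum_add_distrib, Finset.sum_add_distrib]
    have e1 : ∑ β ∈ Finset.range (s / D + 1), En T A D β n / D ≤ 3 * c * (2 * c + 1) := by
      have h2 : D * ∑ β ∈ Finset.range (s / D + 1), En T A D β n / D ≤
          3 * (A.card * (2 * c + 1)) := by
        rw [Finset.mul_sum]
        exact (Finset.sum_le_sum fun β _ => Nat.mul_div_le _ _).trans
          (events_sum T A D n (2 * c) _ hch)
      rw [hA] at h2
      have h3 : D * ∑ β ∈ Finset.range (s / D + 1), En T A D β n / D ≤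
          D * (3 * c * (2 * c + 1)) := by
        refine h2.trans ?_
        calc 3 * (s * (2 * c + 1)) ≤ 3 * ((c * D) * (2 * c + 1)) := by gcongr
          _ = D * (3 * c * (2 * c + 1)) := by ring
      exact Nat.le_of_mul_le_mul_left h3 hD0
    have e2 : ∑ β ∈ Finset.range (s / D + 1),
        ((Finset.range n).filter fun b => lev b / D = β).card / c ≤ c ^ 2 := by
      have h2 : c * ∑ β ∈ Finset.range (s / D + 1),
          ((Finset.range n).filter fun b => lev b / D = β).card / c ≤ n := by
        rw [Finset.mul_sum]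
        refine (Finset.sum_le_sum fun β _ => Nat.mul_div_le _ _).trans ?_
        have h3 : (Finset.range n).card = ∑ β ∈ Finset.range (s / D + 1),
            ((Finset.range n).filter fun b => lev b / D = β).card := by
          apply Finset.card_eq_sum_card_fiberwise
          intro b _
          rw [Finset.coe_range, Set.mem_Iio]
          exact Nat.lt_succ_of_le (Nat.div_le_div_right (hlev b))
        rw [← h3, Finset.card_range]
      have h3 : c * ∑ β ∈ Finset.range (s / D + 1),
          ((Finset.range n).filter fun b => lev b / D = β).card / c ≤ c * c ^ 2 := by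
        refine h2.trans (hn.trans (le_of_eq ?_))
        ring
      exact Nat.le_of_mul_le_mul_left h3 hc
    have e3 : ∑ _β ∈ Finset.range (s / D + 1), 1 ≤ c := by
      rw [Finset.sum_const, Finset.card_range, smul_eq_mul, mul_one]
      exact hsD
    have e4 : c ≤ c ^ 2 := by
      rw [pow_two]
      exact Nat.le_mul_of_pos_left c hc
    calc _ ≤ 3 * c * (2 * c + 1) + c ^ 2 + c := by
          exact Nat.add_le_add (Nat.add_le_add e1 e2) e3
      _ = 7 * c ^ 2 + 4 * c := by ring
      _ ≤ 12 * c ^ 2 := by omega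
  -- double counting
  obtain ⟨P, hP⟩ : ∃ P : ℕ → ℕ → Prop, P = fun a g => ∃ b < n, rep T A lev D c b = g ∧
      T a b ≤ lev b + D ∧ lev b ≤ T a b + D := ⟨_, rfl⟩
  have h1 : ∑ a ∈ A, ((Finset.range n).filter fun g => P a g).card =
      ∑ g ∈ Finset.range n, (A.filter fun a => P a g).card := by
    simp only [Finset.card_filter]
    exact Finset.sum_comm
  have h2 : ∑ g ∈ Finset.range n, (A.filter fun a => P a g).card =
      ∑ g ∈ G, (A.filter fun a => P a g).card := by
    symm
    apply Finset.sum_subset
    · rw [hG]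
      exact Finset.filter_subset _ _
    · intro g hg hgG
      rw [Finset.card_eq_zero, Finset.filter_eq_empty_iff]
      intro a _ hPa
      apply hgG
      rw [hG, Finset.mem_filter]
      rw [hP] at hPa
      obtain ⟨b, hb, h, -⟩ := hPa
      exact ⟨hg, b, hb, h⟩
  have h3 : ∑ g ∈ G, (A.filter fun a => P a g).card ≤ G.card * (6 * D) := by
    rw [← smul_eq_mul]
    apply Finset.sum_le_card_nsmul
    intro g _
    refine le_trans (le_of_eq (congrArg Finset.card (Finset.ext fun a => ?_)))
      (near_card T R A lev D c n g hD0 hR hT)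
    rw [Finset.mem_filter, Finset.mem_filter, hP]
  have h4 : ∑ a ∈ A, ((Finset.range n).filter fun g => P a g).card ≤ 144 * c * s := by
    rw [h1, h2]
    refine h3.trans ?_
    calc G.card * (6 * D) ≤ 12 * c ^ 2 * (6 * D) := Nat.mul_le_mul_right _ hGc
      _ = 72 * c * (c * D) := by ring
      _ ≤ 72 * c * (2 * s) := Nat.mul_le_mul_left _ hcD
      _ = 144 * c * s := by ring
  rw [hP] at h4
  convert h4

end UDGCube
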