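import Pool.Agent.Lib.UDGCube.CntDefs

/-! The size of a group (module of `UDGCube`). -/

namespace UDGCube

open Classical

/-- `ky_eq` and `Jn_lt`: `Jn` is injective on the group and `Jn / m` is constant. -/
theorem group_card (T : ℕ → ℕ → ℕ) (A : Finset ℕ) (lev : ℕ → ℕ) (D m n g : ℕ) (hm : 0 < m) :
    ((Finset.range n).filter fun b => rep T A lev D m b = g).card ≤ m := by
  have key : ∀ b, rep T A lev D m b = g →
      lev g / D = lev b / D ∧ Jn lev D g / m = Jn lev D b / m := by
    intro b hb
    obtain ⟨h1, h2, h3⟩ := rep_spec T A lev D m b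
    rw [hb] at h1 h2 h3
    exact ⟨h2, (ky_eq T A lev D m h1 h2 h3).2⟩
  have hcard : (Finset.Ico (Jn lev D g / m * m) (Jn lev D g / m * m + m)).card = m := by
    rw [Nat.card_Ico]
    omega
  refine le_trans ?_ hcard.le
  apply Finset.card_le_card_of_injOn (fun b => Jn lev D b)
  · intro b hb
    have hb' : rep T A lev D m b = g := by
      have := Finset.mem_coe.1 hb
      exact (Finset.mem_filter.1 this).2
    have h := (key b hb').2
    rw [Finset.mem_coe, Finset.mem_Ico, h]
    refine ⟨Nat.div_mul_le_self _ _, ?_⟩
    show Jn lev D b < Jn lev D b / m * m + m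
    have := Nat.lt_div_mul_add (a := Jn lev D b) hm
    omega
  · intro x hx y hy hxy
    have hx' : rep T A lev D m x = g := (Finset.mem_filter.1 (Finset.mem_coe.1 hx)).2
    have hy' : rep T A lev D m y = g := (Finset.mem_filter.1 (Finset.mem_coe.1 hy)).2
    have hl : lev x / D = lev y / D := (key x hx').1.symm.trans (key y hy').1
    simp only at hxy
    rcases lt_trichotomy x y with h | h | h
    · exact absurd hxy (Jn_lt lev D h hl).ne
    · exact h
    · exact absurd hxy (Jn_lt lev D h hl.symm).ne'

end UDGCube
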