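import Pool.Agent.Lib.UDGCube.Defs

/-! Bands, runs and groups (module of `UDGCube`). -/

namespace UDGCube

open Classical

/-- The value `t` is about in the band `β` (bands have width `D`). -/
def abt (D β t : ℕ) : Prop := t / D ≤ β + 1 ∧ β ≤ t / D + 1

/-- A new value of `T a` which is about in the band `β` starts at `y`. -/
def evt (T : ℕ → ℕ → ℕ) (D β a y : ℕ) : Prop := (y = 0 ∨ T a y ≠ T a (y - 1)) ∧ abt D β (T a y)

/-- The number of such events up to `x`. -/
noncomputable def En (T : ℕ → ℕ → ℕ) (A : Finset ℕ) (D β x : ℕ) : ℕ :=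
  ∑ a ∈ A, ((Finset.range (x + 1)).filter fun y => evt T D β a y).card

/-- The number of earlier positions in the same band. -/
noncomputable def Jn (lev : ℕ → ℕ) (D x : ℕ) : ℕ :=
  ((Finset.range x).filter fun y => lev y / D = lev x / D).card

/-- The number of the group within the band. -/
noncomputable def ky (T : ℕ → ℕ → ℕ) (A : Finset ℕ) (lev : ℕ → ℕ) (D m x : ℕ) : ℕ :=
  En T A D (lev x / D) x / D + Jn lev D x / m

/-- The first position of the group of `x`. -/
noncomputable def rep (T : ℕ → ℕ → ℕ) (A : Finset ℕ) (lev : ℕ → ℕ) (D m x : ℕ) : ℕ :=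
  sInf {y | lev y / D = lev x / D ∧ ky T A lev D m y = ky T A lev D m x}

theorem rep_spec (T : ℕ → ℕ → ℕ) (A : Finset ℕ) (lev : ℕ → ℕ) (D m x : ℕ) :
    rep T A lev D m x ≤ x ∧ lev (rep T A lev D m x) / D = lev x / D ∧
      ky T A lev D m (rep T A lev D m x) = ky T A lev D m x := by
  have hne : {y | lev y / D = lev x / D ∧ ky T A lev D m y = ky T A lev D m x}.Nonempty :=
    ⟨x, rfl, rfl⟩
  exact ⟨Nat.sInf_le ⟨rfl, rfl⟩, Nat.sInf_mem hne⟩

theorem En_mono (T : ℕ → ℕ → ℕ) (A : Finset ℕ) (D β : ℕ) {x y : ℕ} (h : x ≤ y) :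
    En T A D β x ≤ En T A D β y := by
  unfold En
  refine Finset.sum_le_sum fun a _ => Finset.card_le_card ?_
  intro z hz
  rw [Finset.mem_filter, Finset.mem_range] at hz ⊢
  exact ⟨by omega, hz.2⟩

theorem Jn_lt (lev : ℕ → ℕ) (D : ℕ) {x y : ℕ} (h : x < y) (hb : lev x / D = lev y / D) :
    Jn lev D x < Jn lev D y := by
  unfold Jn
  apply Finset.card_lt_card
  rw [Finset.ssubset_iff_of_subset]
  · exact ⟨x, by simpa using ⟨h, hb⟩, by simp⟩
  · intro z hz
    rw [Finset.mem_filter, Finset.mem_range] at hz ⊢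
    exact ⟨by omega, hz.2.trans hb⟩

/-- On a group both parts of `ky` are constant. -/
theorem ky_eq (T : ℕ → ℕ → ℕ) (A : Finset ℕ) (lev : ℕ → ℕ) (D m : ℕ) {x y : ℕ} (h : x ≤ y)
    (hb : lev x / D = lev y / D) (hk : ky T A lev D m x = ky T A lev D m y) :
    En T A D (lev x / D) x / D = En T A D (lev x / D) y / D ∧
      Jn lev D x / m = Jn lev D y / m := by
  have h1 : En T A D (lev x / D) x / D ≤ En T A D (lev x / D) y / D :=
    Nat.div_le_div_right (En_mono T A D _ h)
  have h2 : Jn lev D x / m ≤ Jn lev D y / m := by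
    apply Nat.div_le_div_right
    rcases h.lt_or_eq with h | h
    · exact (Jn_lt lev D h hb).le
    · rw [h]
  unfold ky at hk
  rw [← hb] at hk
  omega

end UDGCube
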