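import Mathlib

/-!
# Adjacency labels of `O(n^(1/3) log² n)` bits for all unit disk graphs: definitions

The decoder `UDGCube.decodeC` and the notions used in the proof.
-/

namespace UDGCube

/-! ## The decoder -/

/-- Reading a bit string two bits at a time: `0 c` is a binary digit `c` of the current number (least
significant digit first), `1 0` ends a number, `1 1` ends a list of numbers. Result: a list of lists
of numbers. -/
def parse : List Bool → List (List ℕ) → List ℕ → ℕ → ℕ → List (List ℕ)
  | false :: c :: t, A, l, v, p => parse t A l (if c then v + p else v) (2 * p)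
  | true :: false :: t, A, l, v, _ => parse t A (l ++ [v]) 0 1
  | true :: true :: t, A, l, _, _ => parse t (A ++ [l]) [] 0 1
  | _, A, _, _, _ => A

/-- The structured label contained in a bit string. -/
def read (s : List Bool) : List (List ℕ) := parse s [] [] 0 1

/-- A list `x₀, v₀, x₁, v₁, …` with `x₀ < x₁ < …` describes a step function: the value at `x` is `v_i`
for the last `x_i ≤ x` (the value is `d` before `x₀`). -/
def ev : List ℕ → ℕ → ℕ → ℕ
  | x0 :: v :: t, x, d => if x0 ≤ x then ev t x v else d
  | _, _, d => d

/-- A list `r₀, v₀, r₁, v₁, …` read as a table: the value `v_i` for the first `r_i = r`. -/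
def lk : List ℕ → ℕ → ℕ
  | r0 :: v :: t, r => if r0 = r then v else lk t r
  | _, _ => 0

/-- The test of one round. `T`, `G`: step function and table of the lower vertex, `i` its position;
`P = lev, rep, D, step function`: the data of the upper vertex, `j` its position. -/
def tst (T G : List ℕ) (i : ℕ) (P : List ℕ) (j : ℕ) : Bool :=
  match P with
  | lev :: rep :: D :: st =>
    if lev + D < ev T j 0 then true
    else if ev T j 0 + D < lev then false
    else decide (lk G rep ≤ ev st i 0)
  | _ => false

/-- The test for two structured labels, the first one of the lower vertex. A structured label is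
`[height rank, position], [round], T, G, data of round 0, data of round 1, …`; the data of round `0`
is a list of positions. -/
def dir (A B : List (List ℕ)) : Bool :=
  match A, B with
  | (_ :: i :: _) :: (k :: _) :: T :: G :: _, (_ :: j :: _) :: _ :: _ :: _ :: R =>
    if k = 0 then decide (i ∈ R.getD 0 []) else tst T G i (R.getD k []) j
  | _, _ => false

/-- **The decoder.** It gets the two labels (bit strings) and nothing else; it reads both structured
labels, compares the height ranks and applies `dir`. -/
def decodeC (s t : List Bool) : Bool :=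
  if ((read s).getD 0 []).getD 0 0 ≤ ((read t).getD 0 []).getD 0 0 then dir (read s) (read t)
  else dir (read t) (read s)

/-! ## Notions of the proof -/

/-- The upper arc of the unit circle around `c` at the abscissa `x` (`⊥` outside its domain). -/
noncomputable def arc (c : ℝ × ℝ) (x : ℝ) : WithBot ℝ :=
  if |x - c.1| ≤ 1 then ((c.2 + √(1 - (x - c.1) ^ 2) : ℝ) : WithBot ℝ) else ⊥

/-- The point `b` is on or under the upper arc of the unit circle around `a`. -/
def under (q : ℕ → ℝ × ℝ) (a b : ℕ) : Prop := ((q b).2 : WithBot ℝ) ≤ arc (q a) (q b).1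

/-- At the abscissa of the point number `x`, the arc of `a'` is below the arc of `a` (ties are broken
by the number). -/
def before (q : ℕ → ℝ × ℝ) (x a' a : ℕ) : Prop :=
  arc (q a') (q x).1 < arc (q a) (q x).1 ∨ (arc (q a') (q x).1 = arc (q a) (q x).1 ∧ a' < a)

/-- The abstract situation: for every position `x` a strict total order `Lt x` of the lines, every
pair changes its order in a convex or co-convex way, and the lines with `M` come after the others. -/
structure Sys (M : ℕ → ℕ → Prop) (Lt : ℕ → ℕ → ℕ → Prop) : Prop where
  irr : ∀ x a, ¬ Lt x a a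
  tr : ∀ x a b c, Lt x a b → Lt x b c → Lt x a c
  tot : ∀ x a b, a ≠ b → Lt x a b ∨ Lt x b a
  ch : ∀ a b, (∀ x y z, x ≤ y → y ≤ z → Lt x a b → Lt z a b → Lt y a b) ∨
    (∀ x y z, x ≤ y → y ≤ z → ¬ Lt x a b → ¬ Lt z a b → ¬ Lt y a b)
  cp : ∀ x a a', M a x → ¬ M a' x → Lt x a' a

open Classical in
/-- The rank of the line `a` at the position `x` among the lines of `A`. -/
noncomputable def rk (Lt : ℕ → ℕ → ℕ → Prop) (A : Finset ℕ) (x a : ℕ) : ℕ :=
  (A.filter fun a' => Lt x a' a).card

open Classical in
/-- The number of lines `a ∈ A` without `M a x`. -/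
noncomputable def lv (M : ℕ → ℕ → Prop) (A : Finset ℕ) (x : ℕ) : ℕ :=
  (A.filter fun a => ¬ M a x).card

/-- Total variation of `F` on `0, …, n`. -/
def vr (F : ℕ → ℕ) (n : ℕ) : ℕ := ∑ i ∈ Finset.range n, ((F (i + 1) - F i) + (F i - F (i + 1)))

end UDGCube
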