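import Pool.Agent.Lib.UDGCube.Defs

/-! Writing structured labels as bit strings (module of `UDGCube`). -/

namespace UDGCube

/-- A number: its binary digits, then the end mark. -/
def encN (x : ℕ) : List Bool := (Nat.bits x).flatMap (fun c => [false, c]) ++ [true, false]

/-- A list of numbers. -/
def encL (l : List ℕ) : List Bool := l.flatMap encN ++ [true, true]

/-- A structured label. -/
def enc (A : List (List ℕ)) : List Bool := A.flatMap encL

private lemma parse_digit (c : Bool) (t : List Bool) (A : List (List ℕ)) (l : List ℕ) (v p : ℕ) :
    parse (false :: c :: t) A l v p = parse t A l (if c then v + p else v) (2 * p) := by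
  rw [parse]

private lemma parse_bits (x : ℕ) : ∀ (s : List Bool) (A : List (List ℕ)) (l : List ℕ) (v p : ℕ),
    ∃ p', parse ((Nat.bits x).flatMap (fun c => [false, c]) ++ s) A l v p =
      parse s A l (v + p * x) p' := by
  induction x using Nat.binaryRec' with
  | zero =>
    intro s A l v p
    exact ⟨p, by simp⟩
  | bit b n h ih =>
    intro s A l v p
    obtain ⟨p', hp'⟩ := ih s A l (if b then v + p else v) (2 * p)
    refine ⟨p', ?_⟩
    rw [Nat.bits_append_bit n b h, List.flatMap_cons]
    simp only [List.cons_append, List.nil_append]
    rw [parse_digit, hp']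
    congr 1
    cases b
    · simp [Nat.bit]; ring
    · simp [Nat.bit]; ring

private lemma parse_encN (x : ℕ) (s : List Bool) (A : List (List ℕ)) (l : List ℕ) :
    parse (encN x ++ s) A l 0 1 = parse s A (l ++ [x]) 0 1 := by
  unfold encN
  rw [List.append_assoc]
  obtain ⟨p', hp'⟩ := parse_bits x ([true, false] ++ s) A l 0 1
  rw [hp']
  simp only [List.cons_append, List.nil_append]
  rw [parse]
  simp

private lemma parse_encL (L : List ℕ) : ∀ (s : List Bool) (A : List (List ℕ)) (l : List ℕ),
    parse (encL L ++ s) A l 0 1 = parse s (A ++ [l ++ L]) [] 0 1 := by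
  induction L with
  | nil =>
    intro s A l
    simp only [encL, List.flatMap_nil, List.nil_append, List.cons_append, List.append_nil]
    rw [parse]
  | cons x L ih =>
    intro s A l
    have e1 : encL (x :: L) ++ s = encN x ++ (encL L ++ s) := by
      simp [encL, List.flatMap_cons, List.append_assoc]
    rw [e1, parse_encN, ih]
    simp

private lemma parse_enc (A' : List (List ℕ)) : ∀ (s : List Bool) (A : List (List ℕ)),
    parse (enc A' ++ s) A [] 0 1 = parse s (A ++ A') [] 0 1 := by
  induction A' with
  | nil =>
    intro s A
    simp [enc]
  | cons L A' ih =>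
    intro s A
    have e1 : enc (L :: A') ++ s = encL L ++ (enc A' ++ s) := by
      simp [enc, List.flatMap_cons, List.append_assoc]
    rw [e1, parse_encL, ih]
    simp

/-- Induction: `parse ((bits x).flatMap (fun c => [false, c]) ++ s) A l v p = parse s A l (v + p * x) p'` etc. -/
theorem read_enc (A : List (List ℕ)) : read (enc A) = A := by
  have h := parse_enc A [] []
  rw [List.append_nil, List.nil_append] at h
  unfold read
  rw [h]
  simp [parse]

private lemma flat_length (bs : List Bool) :
    (bs.flatMap (fun c => [false, c])).length = 2 * bs.length := by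
  induction bs with
  | nil => simp
  | cons b bs ih =>
    rw [List.flatMap_cons, List.length_append, ih]
    simp
    ring

private lemma encN_length (x B : ℕ) (h : x < 2 ^ B) : (encN x).length ≤ 2 * B + 2 := by
  unfold encN
  rw [List.length_append, flat_length, Nat.size_eq_bits_len]
  have := Nat.size_le.2 h
  simp only [List.length_cons, List.length_nil]
  omega

private lemma encL_length (L : List ℕ) (B : ℕ) (h : ∀ x ∈ L, x < 2 ^ B) :
    (encL L).length ≤ (2 * B + 2) * L.length + 2 := by
  induction L with
  | nil => simp [encL]
  | cons x L ih =>
    have e1 : encL (x :: L) = encN x ++ encL L := by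
      simp [encL, List.flatMap_cons, List.append_assoc]
    have h1 := encN_length x B (h x (by simp))
    have h2 := ih fun y hy => h y (List.mem_cons_of_mem x hy)
    rw [e1, List.length_append, List.length_cons, Nat.mul_add]
    omega

theorem enc_length (A : List (List ℕ)) (B : ℕ) (h : ∀ l ∈ A, ∀ x ∈ l, x < 2 ^ B) :
    (enc A).length ≤ (2 * B + 2) * (A.map List.length).sum + 2 * A.length := by
  induction A with
  | nil => simp [enc]
  | cons L A ih =>
    have e1 : enc (L :: A) = encL L ++ enc A := by
      simp [enc, List.flatMap_cons]
    have h1 := encL_length L B (h L (by simp))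
    have h2 := ih fun l hl => h l (List.mem_cons_of_mem L hl)
    rw [e1, List.length_append, List.map_cons, List.sum_cons, List.length_cons, Nat.mul_add]
    omega

end UDGCube
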