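import Pool.Agent.Lib.UDGCube.Sorted

/-! The theorem (module of `UDGCube`). -/

namespace UDGCube

/-- Sort by abscissa (`Tuple.sort`), height ranks also from `Tuple.sort`, then `main_sorted`. -/
theorem main {n c : ℕ} (hn : n ≤ c ^ 3) (p : Fin n → EuclideanSpace ℝ (Fin 2)) :
    ∃ lab : Fin n → List Bool,
      (∀ v, (lab v).length ≤ 5000 * c * (Nat.log 2 n + 1) ^ 2) ∧
      ∀ u v, (decodeC (lab u) (lab v) = true ↔ dist (p u) (p v) ≤ 1) := by
  rcases Nat.eq_zero_or_pos n with h0 | h0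
  · subst h0
    exact ⟨fun v => v.elim0, fun v => v.elim0, fun v => v.elim0⟩
  have hc : 0 < c := by
    rcases Nat.eq_zero_or_pos c with h | h
    · subst h; simp at hn; omega
    · exact h
  set σ := Tuple.sort (fun i => p i 0) with hσ
  set τ := Tuple.sort (fun i => p i 1) with hτ
  have mσ : Monotone ((fun i => p i 0) ∘ σ) := Tuple.monotone_sort _
  have mτ : Monotone ((fun i => p i 1) ∘ τ) := Tuple.monotone_sort _
  let cl : ℕ → Fin n := fun i => ⟨min i (n - 1), by omega⟩
  have hcl : ∀ i (hi : i < n), cl i = ⟨i, hi⟩ := by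
    intro i hi
    apply Fin.ext
    simp only [cl]
    omega
  have mcl : Monotone cl := by
    intro i j hij
    simp only [cl, Fin.mk_le_mk]
    omega
  let q : ℕ → ℝ × ℝ := fun i => (p (σ (cl i)) 0, p (σ (cl i)) 1)
  let h : ℕ → ℕ := fun i => (τ.symm (σ (cl i))).val
  obtain ⟨lab, h1, h2⟩ := main_sorted hc hn q
    (fun i j hij => mσ (mcl hij)) h (fun i _ => (τ.symm (σ (cl i))).isLt) (by
      intro i _ j _ hij
      have := mτ (show τ.symm (σ (cl i)) ≤ τ.symm (σ (cl j)) from hij)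
      simpa [q] using this)
  refine ⟨fun v => lab (σ.symm v).val, fun v => h1 _ (σ.symm v).isLt, fun u v => ?_⟩
  rw [h2 _ (σ.symm u).isLt _ (σ.symm v).isLt]
  have e1 : ∀ w : Fin n, q (σ.symm w).val = (p w 0, p w 1) := by
    intro w
    simp only [q]
    rw [hcl _ (σ.symm w).isLt]
    simp
  rw [e1, e1, EuclideanSpace.dist_eq, Fin.sum_univ_two, Real.sqrt_le_one]
  simp only [Real.dist_eq, sq_abs]

end UDGCube
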