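import Pool.Agent.Lib.UDGCube.Arc

/-! The system of a point set (module of `UDGCube`). -/

namespace UDGCube

/-- `ch`: for `a < b` the order `before x a b` is `arc a ≤ arc b`, the negation of `arc b < arc a`; for
`b < a` it is `arc a < arc b`; use `arc_conn`. -/
theorem sys_before (q : ℕ → ℝ × ℝ) (hq : Monotone fun i => (q i).1) :
    Sys (under q) (before q) := by
  refine ⟨?_, ?_, ?_, ?_, ?_⟩
  · rintro x a (h | ⟨_, h⟩)
    · exact lt_irrefl _ h
    · exact lt_irrefl _ h
  · rintro x a b c (h | ⟨h, h'⟩) (k | ⟨k, k'⟩)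
    · exact Or.inl (h.trans k)
    · exact Or.inl (lt_of_lt_of_eq h k)
    · exact Or.inl (lt_of_eq_of_lt h k)
    · exact Or.inr ⟨h.trans k, h'.trans k'⟩
  · intro x a b hab
    rcases lt_trichotomy (arc (q a) (q x).1) (arc (q b) (q x).1) with h | h | h
    · exact Or.inl (Or.inl h)
    · rcases lt_or_gt_of_ne hab with h' | h'
      · exact Or.inl (Or.inr ⟨h, h'⟩)
      · exact Or.inr (Or.inr ⟨h.symm, h'⟩)
    · exact Or.inr (Or.inl h)
  · intro a b
    rcases lt_or_ge a b with hab | hab
    · right
      have key : ∀ x, ¬ before q x a b ↔ arc (q b) (q x).1 < arc (q a) (q x).1 := by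
        intro x
        constructor
        · intro h
          by_contra h2
          rcases lt_or_eq_of_le (not_lt.1 h2) with h3 | h3
          · exact h (Or.inl h3)
          · exact h (Or.inr ⟨h3, hab⟩)
        · rintro h (h2 | ⟨h2, _⟩)
          · exact lt_asymm h h2
          · exact absurd h2 (ne_of_gt h)
      intro x y z hxy hyz hx hz
      rw [key] at hx hz ⊢
      exact arc_conn (q b) (q a) (hq hxy) (hq hyz) hx hz
    · left
      have key : ∀ x, before q x a b ↔ arc (q a) (q x).1 < arc (q b) (q x).1 := by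
        intro x
        constructor
        · rintro (h | ⟨_, h⟩)
          · exact h
          · exact absurd h (not_lt.2 hab)
        · exact fun h => Or.inl h
      intro x y z hxy hyz hx hz
      rw [key] at hx hz ⊢
      exact arc_conn (q a) (q b) (hq hxy) (hq hyz) hx hz
  · intro x a a' h h'
    exact Or.inl (lt_of_lt_of_le (not_le.1 h') h)

theorem under_iff (q : ℕ → ℝ × ℝ) (a b : ℕ) (h : (q a).2 ≤ (q b).2) :
    under q a b ↔ ((q a).1 - (q b).1) ^ 2 + ((q a).2 - (q b).2) ^ 2 ≤ 1 := by
  unfold under arc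
  by_cases h1 : |(q b).1 - (q a).1| ≤ 1
  · rw [if_pos h1, WithBot.coe_le_coe, ← sub_le_iff_le_add',
      Real.le_sqrt (by linarith : (0 : ℝ) ≤ (q b).2 - (q a).2)]
    · constructor
      · intro h2
        nlinarith [h2]
      · intro h2
        nlinarith [h2]
    · have h2 : ((q b).1 - (q a).1) ^ 2 ≤ 1 := (sq_le_one_iff_abs_le_one _).2 h1
      linarith
  · rw [if_neg h1]
    constructor
    · intro h2
      exact absurd (le_bot_iff.1 h2) WithBot.coe_ne_bot
    · intro h2
      exfalso
      apply h1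
      rw [← sq_le_one_iff_abs_le_one]
      nlinarith [sq_nonneg ((q a).2 - (q b).2)]

theorem under_flip (q : ℕ → ℝ × ℝ) (a b : ℕ) :
    under (fun i => ((q i).1, -(q i).2)) b a ↔ under q a b := by
  unfold under arc
  show ((-(q a).2 : ℝ) : WithBot ℝ) ≤ (if |(q a).1 - (q b).1| ≤ 1 then
      ((-(q b).2 + √(1 - ((q a).1 - (q b).1) ^ 2) : ℝ) : WithBot ℝ) else ⊥) ↔ _
  rw [abs_sub_comm (q a).1 (q b).1]
  by_cases h1 : |(q b).1 - (q a).1| ≤ 1
  · rw [if_pos h1, if_pos h1, WithBot.coe_le_coe, WithBot.coe_le_coe]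
    have h2 : ((q a).1 - (q b).1) ^ 2 = ((q b).1 - (q a).1) ^ 2 := by ring
    rw [h2]
    constructor
    · intro h3
      linarith
    · intro h3
      linarith
  · rw [if_neg h1, if_neg h1]
    constructor
    · intro h2
      exact absurd (le_bot_iff.1 h2) WithBot.coe_ne_bot
    · intro h2
      exact absurd (le_bot_iff.1 h2) WithBot.coe_ne_bot

/-- `sys_before` for the reflected points. -/
theorem sys_dual (q : ℕ → ℝ × ℝ) (hq : Monotone fun i => (q i).1) :
    ∃ Lt' : ℕ → ℕ → ℕ → Prop, Sys (fun b a => under q a b) Lt' := by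
  refine ⟨before (fun i => ((q i).1, -(q i).2)), ?_⟩
  have h1 : (fun b a => under q a b) = under (fun i => ((q i).1, -(q i).2)) := by
    funext b a
    exact propext (under_flip q a b).symm
  rw [h1]
  exact sys_before _ hq

end UDGCube
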