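import Pool.Agent.Lib.UDGCube.Round

/-! All rounds (module of `UDGCube`). -/

namespace UDGCube

open Classical

variable {M : ℕ → ℕ → Prop} {Lt Lt' : ℕ → ℕ → ℕ → Prop}

private theorem size_half {a b : ℕ} (h : 2 * b ≤ a) (ha : 0 < a) : Nat.size b + 1 ≤ Nat.size a := by
  have h1 : a < 2 ^ Nat.size a := Nat.lt_size_self a
  have h0 : 0 < Nat.size a := Nat.size_pos.2 ha
  obtain ⟨k, hk⟩ : ∃ k, Nat.size a = k + 1 := ⟨Nat.size a - 1, by omega⟩
  rw [hk] at h1 ⊢
  have h2 : b < 2 ^ k := by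
    rw [pow_succ] at h1
    omega
  exact Nat.succ_le_succ (Nat.size_le.2 h2)

private theorem peel_aux (S : Sys M Lt) (S' : Sys (fun b a => M a b) Lt') {n c : ℕ} (hc : 0 < c)
    (hn : n ≤ c ^ 3) (N : ℕ) : ∀ A : Finset ℕ, A.card = N → (∀ a ∈ A, a < n) →
    ∃ K, 0 < K ∧ K ≤ Nat.size A.card + 1 ∧ ∃ (hd : ℕ → ℕ) (TT GG : ℕ → List ℕ)
      (RD : ℕ → List (List ℕ)),
      (∀ a ∈ A, hd a < K ∧ (TT a).length ≤ 4 * c + 2 ∧ (∀ y ∈ TT a, y ≤ n + 1) ∧
        (GG a).length ≤ 576 * c ∧ ∀ y ∈ GG a, y ≤ n + 1) ∧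
      (∀ b < n, (RD b).length = K ∧ ∀ l ∈ RD b, l.length ≤ 4 * c + 5 ∧ ∀ y ∈ l, y ≤ n + 1) ∧
      ∀ a ∈ A, ∀ b < n, ((if hd a = 0 then decide (a ∈ (RD b).getD 0 [])
        else tst (TT a) (GG a) a ((RD b).getD (hd a) []) b) = true ↔ M a b) := by
  induction N using Nat.strong_induction_on with
  | _ N ih =>
  intro A hAN hA
  rcases Nat.lt_or_ge A.card c with hlt | hge
  · refine ⟨1, Nat.one_pos, by omega, fun _ => 0, fun _ => [], fun _ => [],
      fun b => [(A.filter fun a => M a b).toList], ?_, ?_, ?_⟩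
    · intro a _
      simp
    · intro b _
      refine ⟨rfl, ?_⟩
      intro l hl
      rw [List.mem_singleton] at hl
      subst hl
      constructor
      · rw [Finset.length_toList]
        have := Finset.card_filter_le A (fun a => M a b)
        omega
      · intro y hy
        rw [Finset.mem_toList, Finset.mem_filter] at hy
        have := hA y hy.1
        omega
    · intro a ha b _
      simp [ha]
  · obtain ⟨S0, hS0, hcard, T1, G1, P1, h1, h2, h3, h4⟩ := round S S' hc hn A hA hge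
    have hS0c : S0.card ≤ A.card := Finset.card_le_card hS0
    have hdc : (A \ S0).card = A.card - S0.card := Finset.card_sdiff_of_subset hS0
    obtain ⟨K, hK0, hK, hd, TT, GG, RD, g1, g2, g3⟩ := ih (A \ S0).card (by omega) (A \ S0) rfl
      (fun a ha => hA a (Finset.mem_sdiff.1 ha).1)
    refine ⟨K + 1, Nat.succ_pos K, ?_, fun a => if a ∈ S0 then K else hd a,
      fun a => if a ∈ S0 then T1 a else TT a, fun a => if a ∈ S0 then G1 a else GG a,
      fun b => RD b ++ [P1 b], ?_, ?_, ?_⟩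
    · have := size_half (a := A.card) (b := (A \ S0).card) (by omega) (by omega)
      omega
    · intro a ha
      by_cases has : a ∈ S0
      · simp only [has, if_true]
        exact ⟨Nat.lt_succ_self K, (h1 a has).1, (h1 a has).2, (h2 a has).1, (h2 a has).2⟩
      · simp only [has, if_false]
        obtain ⟨e1, e2, e3, e4, e5⟩ := g1 a (Finset.mem_sdiff.2 ⟨ha, has⟩)
        exact ⟨by omega, e2, e3, e4, e5⟩
    · intro b hb
      obtain ⟨e1, e2⟩ := g2 b hb
      refine ⟨by simp [e1], ?_⟩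
      intro l hl
      rw [List.mem_append, List.mem_singleton] at hl
      rcases hl with hl | hl
      · exact e2 l hl
      · rw [hl]; exact h3 b hb
    · intro a ha b hb
      obtain ⟨e1, e2⟩ := g2 b hb
      by_cases has : a ∈ S0
      · simp only [has, if_true]
        have hK1 : (RD b ++ [P1 b]).getD K [] = P1 b := by
          rw [List.getD_append_right _ _ _ _ (by omega), e1]
          simp
        rw [if_neg (by omega), hK1]
        exact h4 a has b hb
      · simp only [has, if_false]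
        have ha' : a ∈ A \ S0 := Finset.mem_sdiff.2 ⟨ha, has⟩
        have hlt := (g1 a ha').1
        rw [List.getD_append _ _ _ _ (by omega), List.getD_append _ _ _ _ (by omega)]
        exact g3 a ha' b hb

/-- Strong induction on `A.card`: if `A.card < c` one round (`RD b = [list of the a ∈ A with M a b]`,
`hd = 0`), otherwise `round`, the induction hypothesis for `A \ S0`, and `PP b` is appended to `RD b`. -/
theorem peel (S : Sys M Lt) (S' : Sys (fun b a => M a b) Lt') {n c : ℕ} (hc : 0 < c)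
    (hn : n ≤ c ^ 3) (A : Finset ℕ) (hA : ∀ a ∈ A, a < n) :
    ∃ K, 0 < K ∧ K ≤ Nat.log 2 A.card + 2 ∧ ∃ (hd : ℕ → ℕ) (TT GG : ℕ → List ℕ)
      (RD : ℕ → List (List ℕ)),
      (∀ a ∈ A, hd a < K ∧ (TT a).length ≤ 4 * c + 2 ∧ (∀ y ∈ TT a, y ≤ n + 1) ∧
        (GG a).length ≤ 576 * c ∧ ∀ y ∈ GG a, y ≤ n + 1) ∧
      (∀ b < n, (RD b).length = K ∧ ∀ l ∈ RD b, l.length ≤ 4 * c + 5 ∧ ∀ y ∈ l, y ≤ n + 1) ∧
      ∀ a ∈ A, ∀ b < n, ((if hd a = 0 then decide (a ∈ (RD b).getD 0 [])
        else tst (TT a) (GG a) a ((RD b).getD (hd a) []) b) = true ↔ M a b) := by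
  obtain ⟨K, hK0, hK, r⟩ := peel_aux S S' hc hn A.card A rfl hA
  refine ⟨K, hK0, ?_, r⟩
  have h : Nat.size A.card ≤ Nat.log 2 A.card + 1 :=
    Nat.size_le.2 (Nat.lt_pow_succ_log_self (by norm_num) _)
  omega

end UDGCube
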