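import Pool.Agent.Lib.UDGCube.Defs

/-! Ranks (module of `UDGCube`). -/

namespace UDGCube

variable {M : ℕ → ℕ → Prop} {Lt : ℕ → ℕ → ℕ → Prop}

/-- The lines without `M` come first. -/
theorem rank_iff (S : Sys M Lt) {A : Finset ℕ} {a : ℕ} (ha : a ∈ A) (x : ℕ) :
    M a x ↔ lv M A x ≤ rk Lt A x a := by
  classical
  constructor
  · intro h
    unfold lv rk
    apply Finset.card_le_card
    intro a' ha'
    rw [Finset.mem_filter] at ha' ⊢
    exact ⟨ha'.1, S.cp x a a' h ha'.2⟩
  · intro h
    by_contra hn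
    have hlt : rk Lt A x a < lv M A x := by
      unfold lv rk
      apply Finset.card_lt_card
      rw [Finset.ssubset_iff_of_subset]
      · refine ⟨a, ?_, ?_⟩
        · rw [Finset.mem_filter]
          exact ⟨ha, hn⟩
        · rw [Finset.mem_filter]
          intro h'
          exact S.irr x a h'.2
      · intro a' ha'
        rw [Finset.mem_filter] at ha' ⊢
        refine ⟨ha'.1, fun hM => ?_⟩
        exact S.irr x a (S.tr x a a' a (S.cp x a' a hM hn) ha'.2)
    omega

theorem rk_strict (S : Sys M Lt) {A : Finset ℕ} {a b x : ℕ} (ha : a ∈ A) (h : Lt x a b) :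
    rk Lt A x a < rk Lt A x b := by
  classical
  unfold rk
  apply Finset.card_lt_card
  rw [Finset.ssubset_iff_of_subset]
  · refine ⟨a, ?_, ?_⟩
    · rw [Finset.mem_filter]
      exact ⟨ha, h⟩
    · rw [Finset.mem_filter]
      intro h'
      exact S.irr x a h'.2
  · intro a' ha'
    rw [Finset.mem_filter] at ha' ⊢
    exact ⟨ha'.1, S.tr x a' a b ha'.2 h⟩

theorem rk_inj (S : Sys M Lt) {A : Finset ℕ} {a b x : ℕ} (ha : a ∈ A) (hb : b ∈ A)
    (h : rk Lt A x a = rk Lt A x b) : a = b := by
  by_contra hab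
  rcases S.tot x a b hab with h1 | h1
  · have := rk_strict S (A := A) ha h1
    omega
  · have := rk_strict S (A := A) hb h1
    omega

theorem rk_lt (S : Sys M Lt) {A : Finset ℕ} {a : ℕ} (ha : a ∈ A) (x : ℕ) :
    rk Lt A x a < A.card := by
  classical
  unfold rk
  apply Finset.card_lt_card
  rw [Finset.ssubset_iff_of_subset (Finset.filter_subset _ _)]
  refine ⟨a, ha, ?_⟩
  rw [Finset.mem_filter]
  intro h'
  exact S.irr x a h'.2

theorem rk_le (A : Finset ℕ) (a x : ℕ) : rk Lt A x a ≤ A.card := by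
  classical
  unfold rk
  exact Finset.card_filter_le _ _

theorem lv_le (A : Finset ℕ) (x : ℕ) : lv M A x ≤ A.card := by
  classical
  unfold lv
  exact Finset.card_filter_le _ _

end UDGCube
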