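import Pool.Agent.Lib.UDGCube.Defs

/-! Step functions (module of `UDGCube`). -/

namespace UDGCube

private def st_fl : List (ℕ × ℕ) → List ℕ
  | [] => []
  | q :: p => q.1 :: q.2 :: st_fl p

private lemma st_fl_append (p : List (ℕ × ℕ)) (b v : ℕ) :
    st_fl (p ++ [(b, v)]) = st_fl p ++ [b, v] := by
  induction p with
  | nil => rfl
  | cons q p ih => simp only [List.cons_append, st_fl, ih]

private lemma st_fl_length (p : List (ℕ × ℕ)) : (st_fl p).length = 2 * p.length := by
  induction p with
  | nil => rfl
  | cons q p ih => simp only [st_fl, List.length_cons, ih]; ring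

private lemma st_ev_app (p : List (ℕ × ℕ)) (b v x : ℕ) : ∀ d : ℕ, (∀ q ∈ p, q.1 ≤ b) →
    ev (st_fl p ++ [b, v]) x d = if b ≤ x then v else ev (st_fl p) x d := by
  induction p with
  | nil =>
    intro d _
    simp only [st_fl, List.nil_append, ev]
  | cons q p ih =>
    intro d hq
    simp only [st_fl, List.cons_append, ev]
    have h1 : q.1 ≤ b := hq q (by simp)
    have h2 := ih q.2 (fun r hr => hq r (by simp [hr]))
    by_cases h3 : q.1 ≤ x
    · rw [if_pos h3, if_pos h3, h2]
    · rw [if_neg h3, if_neg h3, if_neg (by omega)]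

private lemma st_vr_succ (F : ℕ → ℕ) (n : ℕ) :
    vr F (n + 1) = vr F n + ((F (n + 1) - F n) + (F n - F (n + 1))) := by
  unfold vr
  rw [Finset.sum_range_succ]

/-- the variation between two points is at least the difference of the values -/
private lemma st_vr_le (F : ℕ → ℕ) (a n : ℕ) (h : a ≤ n) :
    F n ≤ F a + (vr F n - vr F a) ∧ F a ≤ F n + (vr F n - vr F a) ∧ vr F a ≤ vr F n := by
  induction n, h using Nat.le_induction with
  | base => simp
  | succ n h ih =>
    rw [st_vr_succ]
    omega

private lemma st_main (F : ℕ → ℕ) (n D B : ℕ) (hD : 0 < D) (hF : ∀ x ≤ n, F x ≤ B) :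
    ∃ (p : List (ℕ × ℕ)) (a k : ℕ), p.length = k + 1 ∧ k * D ≤ vr F a ∧ a ≤ n ∧
      (∀ q ∈ p, q.1 ≤ a) ∧ (∀ x, a ≤ x → ev (st_fl p) x 0 = F a) ∧
      (∀ x ≤ n, F x < ev (st_fl p) x 0 + D ∧ ev (st_fl p) x 0 < F x + D) ∧
      (∀ y ∈ st_fl p, y ≤ max n B) ∧
      ((Finset.range n).filter fun x => ev (st_fl p) (x + 1) 0 ≠ ev (st_fl p) x 0).card ≤ k := by
  induction n with
  | zero =>
    refine ⟨[(0, F 0)], 0, 0, rfl, by simp, le_refl _, by simp, ?_, ?_, ?_, by simp⟩
    · intro x _
      simp [st_fl, ev]
    · intro x hx
      have : x = 0 := by omega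
      subst this
      simp [st_fl, ev, hD]
    · intro y hy
      simp only [st_fl, List.mem_cons, List.not_mem_nil, or_false] at hy
      rcases hy with rfl | rfl
      · exact Nat.zero_le _
      · exact le_trans (hF 0 (le_refl _)) (le_max_right _ _)
  | succ n ih =>
    obtain ⟨p, a, k, h1, h2, h3, h4, h5, h6, h7, h8⟩ := ih fun x hx => hF x (by omega)
    by_cases hnear : F (n + 1) < F a + D ∧ F a < F (n + 1) + D
    · refine ⟨p, a, k, h1, h2, by omega, h4, h5, ?_, ?_, ?_⟩
      · intro x hx
        rcases Nat.lt_or_ge n x with h | h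
        · have : x = n + 1 := by omega
          subst this
          rw [h5 _ (by omega)]
          exact hnear
        · exact h6 x h
      · intro y hy
        exact le_trans (h7 y hy) (max_le_max (Nat.le_succ n) (le_refl _))
      · rw [Finset.range_add_one, Finset.filter_insert, if_neg]
        · exact h8
        · rw [not_not, h5 _ (by omega), h5 _ h3]
    · have hv := st_vr_le F a (n + 1) (by omega)
      have hev : ∀ x, ev (st_fl (p ++ [(n + 1, F (n + 1))])) x 0 =
          if n + 1 ≤ x then F (n + 1) else ev (st_fl p) x 0 := by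
        intro x
        rw [st_fl_append]
        exact st_ev_app p _ _ x 0 fun q hq => le_trans (h4 q hq) (by omega)
      refine ⟨p ++ [(n + 1, F (n + 1))], n + 1, k + 1, ?_, ?_, le_refl _, ?_, ?_, ?_, ?_, ?_⟩
      · simp [h1]
      · have : (k + 1) * D = k * D + D := by ring
        omega
      · intro q hq
        rw [List.mem_append, List.mem_singleton] at hq
        rcases hq with hq | rfl
        · exact le_trans (h4 q hq) (by omega)
        · exact le_refl _
      · intro x hx
        rw [hev, if_pos hx]
      · intro x hx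
        rw [hev]
        rcases Nat.lt_or_ge n x with h | h
        · have : x = n + 1 := by omega
          subst this
          rw [if_pos (le_refl _)]
          omega
        · rw [if_neg (by omega)]
          exact h6 x h
      · intro y hy
        rw [st_fl_append, List.mem_append] at hy
        rcases hy with hy | hy
        · exact le_trans (h7 y hy) (max_le_max (Nat.le_succ n) (le_refl _))
        · simp only [List.mem_cons, List.not_mem_nil, or_false] at hy
          rcases hy with rfl | rfl
          · exact le_max_left _ _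
          · exact le_trans (hF _ (le_refl _)) (le_max_right _ _)
      · rw [Finset.range_add_one, Finset.filter_insert]
        have hsame : ((Finset.range n).filter fun x =>
            ev (st_fl (p ++ [(n + 1, F (n + 1))])) (x + 1) 0 ≠
              ev (st_fl (p ++ [(n + 1, F (n + 1))])) x 0) =
            (Finset.range n).filter fun x => ev (st_fl p) (x + 1) 0 ≠ ev (st_fl p) x 0 := by
          apply Finset.filter_congr
          intro x hx
          rw [Finset.mem_range] at hx
          rw [hev, hev, if_neg (by omega), if_neg (by omega)]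
        rw [hsame]
        split_ifs
        · exact le_trans (Finset.card_insert_le _ _) (by omega)
        · omega

/-- Cut `[0, n]` according to the value of `vr F x / D`; on a piece the list gives the value of `F` at
its first point. (Or by induction on `n`.) -/
theorem step (F : ℕ → ℕ) (n D B : ℕ) (hD : 0 < D) (hF : ∀ x ≤ n, F x ≤ B) :
    ∃ l : List ℕ, l.length ≤ 2 * (vr F n / D + 1) ∧ (∀ y ∈ l, y ≤ max n B) ∧
      (∀ x ≤ n, F x < ev l x 0 + D ∧ ev l x 0 < F x + D) ∧
      ((Finset.range n).filter fun x => ev l (x + 1) 0 ≠ ev l x 0).card ≤ vr F n / D := by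
  obtain ⟨p, a, k, h1, h2, h3, -, -, h6, h7, h8⟩ := st_main F n D B hD hF
  have hk : k ≤ vr F n / D := by
    rw [Nat.le_div_iff_mul_le hD]
    exact le_trans h2 (st_vr_le F a n h3).2.2
  refine ⟨st_fl p, ?_, h7, h6, le_trans h8 hk⟩
  rw [st_fl_length, h1]
  omega

end UDGCube
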