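import Pool.Agent.Lib.UDGCube.Defs

/-! Total variation of the rank of a line (module of `UDGCube`). -/

namespace UDGCube

variable {M : ℕ → ℕ → Prop} {Lt : ℕ → ℕ → ℕ → Prop}

private theorem vr_succ (F : ℕ → ℕ) (n : ℕ) :
    vr F (n + 1) = vr F n + ((F (n + 1) - F n) + (F n - F (n + 1))) := by
  unfold vr
  rw [Finset.sum_range_succ]

private theorem vr_add (F G : ℕ → ℕ) (n : ℕ) :
    vr (fun x => F x + G x) n ≤ vr F n + vr G n := by
  unfold vr
  rw [← Finset.sum_add_distrib]
  refine Finset.sum_le_sum fun i _ => ?_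
  simp only
  omega

private theorem vr_sum (A : Finset ℕ) (f : ℕ → ℕ → ℕ) (n : ℕ) :
    vr (fun x => ∑ a ∈ A, f a x) n ≤ ∑ a ∈ A, vr (f a) n := by
  classical
  induction A using Finset.induction_on with
  | empty => simp [vr]
  | insert a A ha ih =>
    rw [Finset.sum_insert ha]
    have h1 : (fun x => ∑ b ∈ insert a A, f b x) = fun x => f a x + ∑ b ∈ A, f b x := by
      funext x
      rw [Finset.sum_insert ha]
    rw [h1]
    exact (vr_add _ _ n).trans (Nat.add_le_add_left ih _)

open Classical in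
private theorem vr_convex (p : ℕ → Prop) (hp : ∀ x y z, x ≤ y → y ≤ z → p x → p z → p y) (n : ℕ) :
    ((∀ i ≤ n, ¬ p i) ∧ vr (fun x => if p x then 1 else 0) n = 0) ∨
      (p n ∧ vr (fun x => if p x then 1 else 0) n ≤ 1) ∨
      (¬ p n ∧ (∃ i ≤ n, p i) ∧ vr (fun x => if p x then 1 else 0) n ≤ 2) := by
  induction n with
  | zero =>
    by_cases h0 : p 0
    · exact Or.inr (Or.inl ⟨h0, by simp [vr]⟩)
    · refine Or.inl ⟨fun i hi => ?_, by simp [vr]⟩
      have : i = 0 := by omega
      rw [this]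
      exact h0
  | succ n ih =>
    rw [vr_succ]
    by_cases h1 : p (n + 1)
    · rcases ih with ⟨h2, h3⟩ | ⟨h2, h3⟩ | ⟨h2, ⟨i, hi, h4⟩, _⟩
      · refine Or.inr (Or.inl ⟨h1, ?_⟩)
        simp only [h1, h2 n le_rfl, if_true, if_false]
        omega
      · refine Or.inr (Or.inl ⟨h1, ?_⟩)
        simp only [h1, h2, if_true]
        omega
      · exact absurd (hp i n (n + 1) hi (Nat.le_succ n) h4 h1) h2
    · rcases ih with ⟨h2, h3⟩ | ⟨h2, h3⟩ | ⟨h2, ⟨i, hi, h4⟩, h3⟩
      · refine Or.inl ⟨fun i hi => ?_, ?_⟩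
        · rcases Nat.lt_or_ge n i with h5 | h5
          · have : i = n + 1 := by omega
            rw [this]
            exact h1
          · exact h2 i h5
        · simp only [h1, h2 n le_rfl, if_false]
          omega
      · refine Or.inr (Or.inr ⟨h1, ⟨n, Nat.le_succ n, h2⟩, ?_⟩)
        simp only [h1, h2, if_true, if_false]
        omega
      · refine Or.inr (Or.inr ⟨h1, ⟨i, hi.trans (Nat.le_succ n), h4⟩, ?_⟩)
        simp only [h1, h2, if_false]
        omega

open Classical in
private theorem vr_convex' (p : ℕ → Prop) (hp : ∀ x y z, x ≤ y → y ≤ z → p x → p z → p y)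
    (n : ℕ) : vr (fun x => if p x then 1 else 0) n ≤ 2 := by
  rcases vr_convex p hp n with ⟨_, h⟩ | ⟨_, h⟩ | ⟨_, _, h⟩ <;> omega

open Classical in
private theorem vr_not (p : ℕ → Prop) (n : ℕ) :
    vr (fun x => if p x then 1 else 0) n = vr (fun x => if ¬ p x then 1 else 0) n := by
  unfold vr
  refine Finset.sum_congr rfl fun i _ => ?_
  by_cases h1 : p i <;> by_cases h2 : p (i + 1) <;> simp [h1, h2]

/-- For every `a'` the truth value of `Lt x a' a` changes at most twice (`Sys.ch`). -/
theorem rk_var (S : Sys M Lt) (A : Finset ℕ) (a n : ℕ) :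
    vr (fun x => rk Lt A x a) n ≤ 2 * A.card := by
  classical
  have h1 : (fun x => rk Lt A x a) = fun x => ∑ a' ∈ A, if Lt x a' a then 1 else 0 := by
    funext x
    unfold rk
    rw [Finset.card_filter]
  rw [h1]
  refine (vr_sum A (fun a' x => if Lt x a' a then 1 else 0) n).trans ?_
  have h2 : ∀ a' ∈ A, vr (fun x => if Lt x a' a then 1 else 0) n ≤ 2 := by
    intro a' _
    rcases S.ch a' a with h | h
    · exact vr_convex' (fun x => Lt x a' a) h n
    · rw [vr_not]
      convert vr_convex' (fun x => ¬ Lt x a' a) h n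
  refine (Finset.sum_le_sum h2).trans ?_
  rw [Finset.sum_const, smul_eq_mul, mul_comm]

end UDGCube
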