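import Pool.Agent.Lib.UDGCube.Rank
import Pool.Agent.Lib.UDGCube.Var
import Pool.Agent.Lib.UDGCube.Step
import Pool.Agent.Lib.UDGCube.Cnt

/-! One round (module of `UDGCube`). -/

namespace UDGCube

open Classical

variable {M : ℕ → ℕ → Prop} {Lt Lt' : ℕ → ℕ → ℕ → Prop}

/-- The table of a function on a list. -/
theorem lk_table (f : ℕ → ℕ) (l : List ℕ) {g : ℕ} (hg : g ∈ l) :
    lk (l.flatMap fun x => [x, f x]) g = f g := by
  induction l with
  | nil => exact absurd hg List.not_mem_nil
  | cons a t ih =>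
    have h0 : ((a :: t).flatMap fun x => [x, f x]) = a :: f a :: t.flatMap fun x => [x, f x] := rfl
    rw [h0, lk]
    by_cases h : a = g
    · rw [if_pos h, h]
    · rw [if_neg h]
      exact ih ((List.mem_cons.1 hg).resolve_left (Ne.symm h))

theorem length_table (f : ℕ → ℕ) (l : List ℕ) :
    (l.flatMap fun x => [x, f x]).length = 2 * l.length := by
  induction l with
  | nil => rfl
  | cons a t ih =>
    have h0 : ((a :: t).flatMap fun x => [x, f x]) = a :: f a :: t.flatMap fun x => [x, f x] := rfl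
    rw [h0, List.length_cons, List.length_cons, List.length_cons, ih]
    ring

theorem mem_table (f : ℕ → ℕ) (l : List ℕ) {y : ℕ} (hy : y ∈ l.flatMap fun x => [x, f x]) :
    ∃ x ∈ l, y = x ∨ y = f x := by
  obtain ⟨x, hx, h⟩ := List.mem_flatMap.1 hy
  refine ⟨x, hx, ?_⟩
  rcases List.mem_cons.1 h with h | h
  · exact Or.inl h
  · exact Or.inr (List.mem_singleton.1 h)

/-- Correctness of the test. -/
theorem tst_iff {T G st : List ℕ} {i j lev rp D R S L : ℕ} {P : Prop} (h1 : P ↔ lev ≤ R)
    (h2 : R < ev T j 0 + D ∧ ev T j 0 < R + D) (h3 : P ↔ L ≤ S) (h4 : ev st i 0 = S)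
    (h5 : ev T j 0 ≤ lev + D → lev ≤ ev T j 0 + D → lk G rp = L) :
    tst T G i (lev :: rp :: D :: st) j = true ↔ P := by
  unfold tst
  simp only
  by_cases a1 : lev + D < ev T j 0
  · rw [if_pos a1]
    simp only [true_iff]
    exact h1.2 (by omega)
  · rw [if_neg a1]
    by_cases a2 : ev T j 0 + D < lev
    · rw [if_pos a2]
      simp only [Bool.false_eq_true, false_iff]
      rw [h1]
      omega
    · rw [if_neg a2, decide_eq_true_iff, h4, h5 (by omega) (by omega), h3]

/-- `D = A.card / c + 1`; `TT a` from `step` for `fun x => rk Lt A x a`; `lev = lv M A`; groups from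
`Cnt`; `S0` = the lines of `A` with at most `288 c` near groups (`near_sum`); `GG a` = the table of the
near groups `g` with the value `lv (fun b a => M a b) (group g) a`;
`PP b = lev b :: rep b :: D :: (step function of fun a => rk Lt' (group of b) a b)`. -/
theorem round (S : Sys M Lt) (S' : Sys (fun b a => M a b) Lt') {n c : ℕ} (hc : 0 < c)
    (hn : n ≤ c ^ 3) (A : Finset ℕ) (hA : ∀ a ∈ A, a < n) (hcA : c ≤ A.card) :
    ∃ S0 ⊆ A, A.card ≤ 2 * S0.card ∧ ∃ TT GG PP : ℕ → List ℕ,
      (∀ a ∈ S0, (TT a).length ≤ 4 * c + 2 ∧ ∀ y ∈ TT a, y ≤ n + 1) ∧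
      (∀ a ∈ S0, (GG a).length ≤ 576 * c ∧ ∀ y ∈ GG a, y ≤ n + 1) ∧
      (∀ b < n, (PP b).length ≤ 4 * c + 5 ∧ ∀ y ∈ PP b, y ≤ n + 1) ∧
      ∀ a ∈ S0, ∀ b < n, (tst (TT a) (GG a) a (PP b) b = true ↔ M a b) := by
  obtain ⟨s, hs⟩ : ∃ s, s = A.card := ⟨_, rfl⟩
  obtain ⟨D, hD⟩ : ∃ D, D = s / c + 1 := ⟨_, rfl⟩
  have hD0 : 0 < D := by
    rw [hD]
    exact Nat.succ_pos _
  have hsn : s ≤ n := by
    rw [hs]
    have h : A ⊆ Finset.range n := fun a ha => Finset.mem_range.2 (hA a ha)
    simpa using Finset.card_le_card h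
  have hscD : s < c * D := by
    rw [hD]
    have h1 := Nat.div_add_mod s c
    have h2 := Nat.mod_lt s hc
    rw [mul_add, mul_one]
    omega
  have hDn : D ≤ n + 1 := by
    rw [hD]
    exact Nat.succ_le_succ ((Nat.div_le_self s c).trans hsn)
  -- the step functions of the lines
  have hT : ∀ a, ∃ l : List ℕ, l.length ≤ 4 * c + 2 ∧ (∀ y ∈ l, y ≤ n) ∧
      (∀ x ≤ n, rk Lt A x a < ev l x 0 + D ∧ ev l x 0 < rk Lt A x a + D) ∧
      ((Finset.range n).filter fun x => ev l (x + 1) 0 ≠ ev l x 0).card ≤ 2 * c := by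
    intro a
    obtain ⟨l, h1, h2, h3, h4⟩ := step (fun x => rk Lt A x a) n D s hD0 fun x _ => by
      rw [hs]
      exact rk_le A a x
    have hv : vr (fun x => rk Lt A x a) n / D < 2 * c := by
      rw [Nat.div_lt_iff_lt_mul hD0]
      have := rk_var S A a n
      rw [← hs] at this
      calc vr (fun x => rk Lt A x a) n ≤ 2 * s := this
        _ < 2 * (c * D) := by omega
        _ = 2 * c * D := by ring
    refine ⟨l, by omega, fun y hy => ?_, h3, h4.trans hv.le⟩
    have := h2 y hy
    rw [max_eq_left hsn] at this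
    exact this
  choose TT hT1 hT2 hT3 hT4 using hT
  obtain ⟨T, hTdef⟩ : ∃ T : ℕ → ℕ → ℕ, T = fun a x => ev (TT a) x 0 := ⟨_, rfl⟩
  obtain ⟨rp, hrp⟩ : ∃ rp : ℕ → ℕ, rp = fun b => rep T A (lv M A) D c b := ⟨_, rfl⟩
  obtain ⟨Gp, hGp⟩ : ∃ Gp : ℕ → Finset ℕ,
    Gp = fun g => (Finset.range n).filter fun b => rp b = g := ⟨_, rfl⟩
  have hGc : ∀ g, (Gp g).card ≤ c := by
    intro g
    rw [hGp, hrp]
    exact group_card T A (lv M A) D c n g hc
  have hGn : ∀ g, (Gp g).card ≤ n := by
    intro g
    rw [hGp]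
    simpa using Finset.card_filter_le (Finset.range n) fun b => rp b = g
  -- the step functions of the points
  have hP : ∀ b, ∃ l : List ℕ, l.length ≤ 4 * c + 2 ∧ (∀ y ∈ l, y ≤ n) ∧
      ∀ x ≤ n, ev l x 0 = rk Lt' (Gp (rp b)) x b := by
    intro b
    obtain ⟨l, h1, h2, h3, -⟩ := step (fun x => rk Lt' (Gp (rp b)) x b) n 1 n one_pos
      fun x _ => (rk_le _ b x).trans (hGn _)
    have hv := rk_var S' (Gp (rp b)) b n
    have hc' := hGc (rp b)
    rw [Nat.div_one] at h1
    refine ⟨l, by omega, fun y hy => ?_, fun x hx => ?_⟩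
    · have := h2 y hy
      rw [max_self] at this
      exact this
    · have := h3 x hx
      omega
  choose QQ hQ1 hQ2 hQ3 using hP
  obtain ⟨N, hN⟩ : ∃ N : ℕ → Finset ℕ, N = fun a => (Finset.range n).filter fun g =>
    ∃ b < n, rep T A (lv M A) D c b = g ∧ T a b ≤ lv M A b + D ∧ lv M A b ≤ T a b + D := ⟨_, rfl⟩
  have hsum : ∑ a ∈ A, (N a).card ≤ 144 * c * s := by
    rw [hN]
    refine near_sum A T (fun a x => rk Lt A x a) (lv M A) hs.symm hc (by omega) hn hD ?_ ?_ ?_ ?_
    · intro x _ a ha b hb h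
      exact rk_inj S ha hb h
    · intro a _ x hx
      rw [hTdef]
      exact hT3 a x hx.le
    · intro a _
      rw [hTdef]
      exact hT4 a
    · intro x
      rw [hs]
      exact lv_le A x
  refine ⟨A.filter fun a => (N a).card ≤ 288 * c, Finset.filter_subset _ _, ?_, TT,
    fun a => (N a).toList.flatMap fun g => [g, lv (fun b a => M a b) (Gp g) a],
    fun b => lv M A b :: rp b :: D :: QQ b, ?_, ?_, ?_, ?_⟩
  · have h1 := Finset.card_filter_add_card_filter_not (s := A) fun a => (N a).card ≤ 288 * c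
    have h2 : (A.filter fun a => ¬ (N a).card ≤ 288 * c).card * (288 * c) ≤ 144 * c * s := by
      refine le_trans ?_ hsum
      calc (A.filter fun a => ¬ (N a).card ≤ 288 * c).card * (288 * c)
          = ∑ a ∈ A.filter fun a => ¬ (N a).card ≤ 288 * c, 288 * c := by
            rw [Finset.sum_const, smul_eq_mul]
        _ ≤ ∑ a ∈ A.filter fun a => ¬ (N a).card ≤ 288 * c, (N a).card := by
            refine Finset.sum_le_sum fun a ha => ?_
            have := (Finset.mem_filter.1 ha).2
            omega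
        _ ≤ ∑ a ∈ A, (N a).card :=
            Finset.sum_le_sum_of_subset (Finset.filter_subset _ _)
    have h3 : 2 * (A.filter fun a => ¬ (N a).card ≤ 288 * c).card ≤ s := by
      have h4 : 144 * c * (2 * (A.filter fun a => ¬ (N a).card ≤ 288 * c).card) ≤
          144 * c * s := by
        calc _ = (A.filter fun a => ¬ (N a).card ≤ 288 * c).card * (288 * c) := by ring
          _ ≤ _ := h2
      exact Nat.le_of_mul_le_mul_left h4 (by positivity)
    omega
  · intro a _
    exact ⟨hT1 a, fun y hy => (hT2 a y hy).trans (Nat.le_succ n)⟩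
  · intro a ha
    have ha2 := (Finset.mem_filter.1 ha).2
    refine ⟨?_, fun y hy => ?_⟩
    · rw [length_table fun g => lv (fun b a => M a b) (Gp g) a, Finset.length_toList]
      omega
    · obtain ⟨g, hg, h⟩ := mem_table (fun g => lv (fun b a => M a b) (Gp g) a) _ hy
      rw [Finset.mem_toList, hN, Finset.mem_filter, Finset.mem_range] at hg
      rcases h with h | h
      · omega
      · have := lv_le (M := fun b a => M a b) (Gp g) a
        have := hGn g
        omega
  · intro b hb
    refine ⟨?_, fun y hy => ?_⟩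
    · simp only [List.length_cons]
      have := hQ1 b
      omega
    · rcases List.mem_cons.1 hy with h | hy
      · have := lv_le (M := M) A b
        omega
      · rcases List.mem_cons.1 hy with h | hy
        · have := (rep_spec T A (lv M A) D c b).1
          rw [hrp] at h
          simp only at h
          omega
        · rcases List.mem_cons.1 hy with h | hy
          · omega
          · have := hQ2 b y hy
            omega
  · intro a ha b hb
    have haA := (Finset.mem_filter.1 ha).1
    have han := hA a haA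
    have hbG : b ∈ Gp (rp b) := by
      rw [hGp, Finset.mem_filter, Finset.mem_range]
      exact ⟨hb, rfl⟩
    refine tst_iff (rank_iff S haA b) (hT3 a b hb.le) (rank_iff S' hbG a) (hQ3 b a han.le) ?_
    intro h1 h2
    refine lk_table (fun g => lv (fun b a => M a b) (Gp g) a) _ ?_
    rw [Finset.mem_toList, hN, Finset.mem_filter, Finset.mem_range]
    have h3 := (rep_spec T A (lv M A) D c b).1
    refine ⟨?_, b, hb, ?_, ?_, ?_⟩
    · rw [hrp]
      exact h3.trans_lt hb
    · rw [hrp]
    · rw [hTdef]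
      exact h1
    · rw [hTdef]
      exact h2

end UDGCube
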