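import Pool.Agent.Lib.UDGCube.Enc
import Pool.Agent.Lib.UDGCube.Geo
import Pool.Agent.Lib.UDGCube.Peel

/-! The labels for points sorted by abscissa (module of `UDGCube`). -/

namespace UDGCube

private theorem bound_aux (c L t g r k : ℕ) (hc : 0 < c) (ht : t ≤ 4 * c + 2) (hg : g ≤ 576 * c)
    (hk : k ≤ L + 2) (hr : r ≤ k * (4 * c + 5)) :
    (2 * (L + 2) + 2) * (2 + (1 + (t + (g + r)))) + 2 * (4 + k) ≤ 5000 * c * (L + 1) ^ 2 := by
  have h1 : r ≤ (L + 2) * (4 * c + 5) := hr.trans (Nat.mul_le_mul_right _ hk)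
  have h2 : (L + 2) * (4 * c + 5) ≤ 18 * (c * (L + 1)) := by nlinarith [Nat.zero_le (c * L)]
  have h4 : c ≤ c * (L + 1) := Nat.le_mul_of_pos_right _ (Nat.succ_pos L)
  have h3 : 2 + (1 + (t + (g + r))) ≤ 603 * (c * (L + 1)) := by omega
  have h5 : 2 * (L + 2) + 2 ≤ 6 * (L + 1) := by omega
  have h6 : (2 * (L + 2) + 2) * (2 + (1 + (t + (g + r)))) ≤ 6 * (L + 1) * (603 * (c * (L + 1))) :=
    Nat.mul_le_mul h5 h3
  have h7 : L + 1 ≤ c * (L + 1) := Nat.le_mul_of_pos_left _ hc
  have h8 : c * (L + 1) ≤ c * (L + 1) ^ 2 := by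
    rw [pow_two, ← mul_assoc]
    exact Nat.le_mul_of_pos_right _ (Nat.succ_pos L)
  have h9 : 6 * (L + 1) * (603 * (c * (L + 1))) = 3618 * (c * (L + 1) ^ 2) := by ring
  have h10 : 5000 * c * (L + 1) ^ 2 = 5000 * (c * (L + 1) ^ 2) := by ring
  rw [h9] at h6
  rw [h10]
  omega

private theorem sum_len (R : List (List ℕ)) (m : ℕ) (h : ∀ l ∈ R, l.length ≤ m) :
    (R.map List.length).sum ≤ R.length * m := by
  induction R with
  | nil => simp
  | cons a t ih =>
    rw [List.map_cons, List.sum_cons, List.length_cons, Nat.succ_mul]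
    have h1 := h a List.mem_cons_self
    have h2 := ih fun l hl => h l (List.mem_cons_of_mem _ hl)
    omega

/-- `lab i = enc ([h i, i] :: [hd i] :: TT i :: GG i :: RD i)` from `peel` with `A = Finset.range n`. -/
theorem main_sorted {n c : ℕ} (hc : 0 < c) (hn : n ≤ c ^ 3) (q : ℕ → ℝ × ℝ)
    (hq : Monotone fun i => (q i).1) (h : ℕ → ℕ) (hh : ∀ i < n, h i < n)
    (hy : ∀ i < n, ∀ j < n, h i ≤ h j → (q i).2 ≤ (q j).2) :
    ∃ lab : ℕ → List Bool,
      (∀ i < n, (lab i).length ≤ 5000 * c * (Nat.log 2 n + 1) ^ 2) ∧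
      ∀ i < n, ∀ j < n, (decodeC (lab i) (lab j) = true ↔
        ((q i).1 - (q j).1) ^ 2 + ((q i).2 - (q j).2) ^ 2 ≤ 1) := by
  obtain ⟨Lt', S'⟩ := sys_dual q hq
  obtain ⟨K, hK0, hK, hd, TT, GG, RD, g1, g2, g3⟩ := peel (sys_before q hq) S' hc hn
    (Finset.range n) (fun a ha => Finset.mem_range.1 ha)
  rw [Finset.card_range] at hK
  refine ⟨fun i => enc ([h i, i] :: [hd i] :: TT i :: GG i :: RD i), ?_, ?_⟩
  · intro i hi
    obtain ⟨e1, e2, e3, e4, e5⟩ := g1 i (Finset.mem_range.2 hi)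
    obtain ⟨f1, f2⟩ := g2 i hi
    have hB : n + 1 < 2 ^ (Nat.log 2 n + 2) := by
      have h1 : n < 2 ^ (Nat.log 2 n + 1) := Nat.lt_pow_succ_log_self (by norm_num) n
      have h2 : 0 < 2 ^ (Nat.log 2 n + 1) := Nat.pos_of_ne_zero (by positivity)
      rw [pow_succ]
      omega
    have hlen := enc_length ([h i, i] :: [hd i] :: TT i :: GG i :: RD i) (Nat.log 2 n + 2) (by
      intro l hl x hx
      rw [List.mem_cons, List.mem_cons, List.mem_cons, List.mem_cons] at hl
      rcases hl with rfl | rfl | rfl | rfl | hl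
      · have := hh i hi
        rw [List.mem_cons, List.mem_singleton] at hx
        rcases hx with rfl | rfl
        · omega
        · omega
      · rw [List.mem_singleton] at hx
        subst hx
        have h1 : Nat.log 2 n + 2 < 2 ^ (Nat.log 2 n + 2) := Nat.lt_two_pow_self
        omega
      · have := e3 x hx
        omega
      · have := e5 x hx
        omega
      · have := (f2 l hl).2 x hx
        omega)
    refine hlen.trans ?_
    have hs := sum_len (RD i) (4 * c + 5) (fun l hl => (f2 l hl).1)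
    rw [f1] at hs
    have hb := bound_aux c (Nat.log 2 n) (TT i).length (GG i).length
      ((RD i).map List.length).sum K hc e2 e4 hK hs
    refine le_trans (le_of_eq ?_) hb
    simp only [List.map_cons, List.sum_cons, List.length_cons, List.length_nil, f1]
    ring
  · intro i hi j hj
    have key : ∀ a < n, ∀ b < n, (q a).2 ≤ (q b).2 →
        (dir ([h a, a] :: [hd a] :: TT a :: GG a :: RD a)
          ([h b, b] :: [hd b] :: TT b :: GG b :: RD b) = true ↔
        ((q a).1 - (q b).1) ^ 2 + ((q a).2 - (q b).2) ^ 2 ≤ 1) := by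
      intro a ha b hb hab
      rw [← under_iff q a b hab, ← g3 a (Finset.mem_range.2 ha) b hb]
      rfl
    have hdec : decodeC (enc ([h i, i] :: [hd i] :: TT i :: GG i :: RD i))
        (enc ([h j, j] :: [hd j] :: TT j :: GG j :: RD j)) =
        if h i ≤ h j then dir ([h i, i] :: [hd i] :: TT i :: GG i :: RD i)
          ([h j, j] :: [hd j] :: TT j :: GG j :: RD j)
        else dir ([h j, j] :: [hd j] :: TT j :: GG j :: RD j)
          ([h i, i] :: [hd i] :: TT i :: GG i :: RD i) := by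
      unfold decodeC
      rw [read_enc, read_enc]
      rfl
    change decodeC (enc ([h i, i] :: [hd i] :: TT i :: GG i :: RD i))
        (enc ([h j, j] :: [hd j] :: TT j :: GG j :: RD j)) = true ↔ _
    rw [hdec]
    split_ifs with hij
    · exact key i hi j hj (hy i hi j hj hij)
    · rw [key j hj i hi (hy j hj i hi (by omega))]
      have e1 : ((q j).1 - (q i).1) ^ 2 + ((q j).2 - (q i).2) ^ 2 =
          ((q i).1 - (q j).1) ^ 2 + ((q i).2 - (q j).2) ^ 2 := by ring
      rw [e1]

end UDGCube
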